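import Mathlib

/-!
# The strip packing: the Riemann sphere, Hermitian forms and the four basic reflections

Homogeneous coordinates and the continuity of the projections are as in `Pool.Agent.R787.Sphere`.
-/

set_option autoImplicit false

open Topology Filter ComplexConjugate

namespace Pool.Agent.N78.AP

/-- The Riemann sphere. -/
abbrev Sp : Type := OnePoint ℂ

/-- first homogeneous coordinate -/
def w1 (x : Sp) : ℂ := Option.elim x 1 (fun x => x)

/-- second homogeneous coordinate -/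
def w2 (x : Sp) : ℂ := Option.elim x 0 (fun _ => 1)

@[simp] lemma w1_infty : w1 OnePoint.infty = 1 := rfl
@[simp] lemma w1_coe (x : ℂ) : w1 (x : Sp) = x := rfl
@[simp] lemma w2_infty : w2 OnePoint.infty = 0 := rfl
@[simp] lemma w2_coe (x : ℂ) : w2 (x : Sp) = 1 := rfl

lemma ext_iff {x y : Sp} : x = y ↔ w1 x * w2 y = w2 x * w1 y := by
  induction x using OnePoint.rec with
  | infty =>
    induction y using OnePoint.rec with
    | infty => simp
    | coe y => simp
  | coe x =>
    induction y using OnePoint.rec with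
    | infty => simp
    | coe y => simp

lemma w_ne (x : Sp) : w1 x ≠ 0 ∨ w2 x ≠ 0 := by
  induction x using OnePoint.rec with
  | infty => left; simp
  | coe x => right; simp

lemma GL_det (g : GL (Fin 2) ℂ) : g 0 0 * g 1 1 - g 0 1 * g 1 0 ≠ 0 := by
  have := g.det_ne_zero
  rwa [Matrix.det_fin_two] at this

lemma smul_vec (g : GL (Fin 2) ℂ) (x : Sp) : ∃ l : ℂ, l ≠ 0 ∧
    g 0 0 * w1 x + g 0 1 * w2 x = l * w1 (g • x) ∧
    g 1 0 * w1 x + g 1 1 * w2 x = l * w2 (g • x) := by
  have hd := GL_det g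
  induction x using OnePoint.rec with
  | infty =>
    rw [OnePoint.smul_infty_eq_ite]
    by_cases h : g 1 0 = 0
    · have h0 : g 0 0 ≠ 0 := by
        intro h0; rw [h, h0] at hd; norm_num at hd
      exact ⟨g 0 0, h0, by simp [h], by simp [h]⟩
    · exact ⟨g 1 0, h, by rw [if_neg h]; simp; field_simp, by rw [if_neg h]; simp⟩
  | coe x =>
    rw [OnePoint.smul_some_eq_ite]
    by_cases h : g 1 0 * x + g 1 1 = 0
    · refine ⟨g 0 0 * x + g 0 1, ?_, by simp [h], by simp [h]⟩
      intro h0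
      have h1 : g 1 1 = - (g 1 0 * x) := by linear_combination h
      have h2 : g 0 1 = - (g 0 0 * x) := by linear_combination h0
      rw [h1, h2] at hd
      ring_nf at hd
      norm_num at hd
    · refine ⟨g 1 0 * x + g 1 1, h, ?_, by rw [if_neg h]; simp⟩
      rw [if_neg h, w1_coe, w1_coe, w2_coe, mul_one, mul_div_cancel₀ _ h]

/-- complex conjugation on the sphere -/
noncomputable def cj (x : Sp) : Sp := OnePoint.map (starRingEnd ℂ) x

@[simp] lemma cj_infty : cj OnePoint.infty = OnePoint.infty := rfl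
@[simp] lemma cj_coe (z : ℂ) : cj (z : Sp) = ((conj z : ℂ) : Sp) := rfl

@[simp] lemma w1_cj (x : Sp) : w1 (cj x) = conj (w1 x) := by
  induction x using OnePoint.rec with
  | infty => simp
  | coe x => simp

@[simp] lemma w2_cj (x : Sp) : w2 (cj x) = conj (w2 x) := by
  induction x using OnePoint.rec with
  | infty => simp
  | coe x => simp

@[simp] lemma cj_cj (x : Sp) : cj (cj x) = x := by
  induction x using OnePoint.rec with
  | infty => simp
  | coe x => simp

/-- complex conjugation as a permutation -/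
noncomputable def cjE : Equiv.Perm Sp := ⟨cj, cj, cj_cj, cj_cj⟩

@[simp] lemma cjE_apply (x : Sp) : cjE x = cj x := rfl

lemma cj_smul (g : GL (Fin 2) ℂ) (x : Sp) :
    cj (g • x) = (Matrix.GeneralLinearGroup.map (starRingEnd ℂ) g) • cj x :=
  OnePoint.map_smul (starRingEnd ℂ) g x

/-- Moebius transformations as permutations -/
noncomputable def mob (g : GL (Fin 2) ℂ) : Equiv.Perm Sp := MulAction.toPerm g

@[simp] lemma mob_apply (g : GL (Fin 2) ℂ) (x : Sp) : mob g x = g • x := rfl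

/-! ### Hermitian forms -/

/-- Hermitian forms in two variables -/
@[ext] structure Fm where
  A : ℝ
  b : ℝ
  c : ℝ
  D : ℝ

/-- The value of a form at a vector -/
noncomputable def vl (Q : Fm) (u v : ℂ) : ℝ :=
  Q.A * Complex.normSq u + 2 * (Q.b * (u * conj v).re + Q.c * (u * conj v).im) +
    Q.D * Complex.normSq v

/-- The value of a form at a point of the sphere -/
noncomputable def ev (Q : Fm) (x : Sp) : ℝ := vl Q (w1 x) (w2 x)

@[simp] lemma ev_infty (Q : Fm) : ev Q OnePoint.infty = Q.A := by simp [ev, vl]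

lemma ev_coe (Q : Fm) (z : ℂ) :
    ev Q (z : Sp) = Q.A * (z.re ^ 2 + z.im ^ 2) + 2 * (Q.b * z.re + Q.c * z.im) + Q.D := by
  simp only [ev, vl, w1_coe, w2_coe, map_one, mul_one, Complex.normSq_apply]; ring

lemma vl_mul (Q : Fm) (l u v : ℂ) : vl Q (l * u) (l * v) = Complex.normSq l * vl Q u v := by
  simp only [vl, map_mul]
  have h : l * u * (conj l * conj v) = (Complex.normSq l : ℂ) * (u * conj v) := by
    rw [Complex.normSq_eq_conj_mul_self]; ring
  rw [h, Complex.re_ofReal_mul, Complex.im_ofReal_mul]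
  ring

/-- The bilinear form -/
def ip (P Q : Fm) : ℝ := 2 * (P.b * Q.b + P.c * Q.c) - P.A * Q.D - P.D * Q.A

/-- sum of forms -/
def add (P Q : Fm) : Fm := ⟨P.A + Q.A, P.b + Q.b, P.c + Q.c, P.D + Q.D⟩

/-- multiples of forms -/
def sm (t : ℝ) (Q : Fm) : Fm := ⟨t * Q.A, t * Q.b, t * Q.c, t * Q.D⟩

lemma ev_add (P Q : Fm) (x : Sp) : ev (add P Q) x = ev P x + ev Q x := by
  simp only [ev, vl, add]; ring

lemma ev_sm (t : ℝ) (Q : Fm) (x : Sp) : ev (sm t Q) x = t * ev Q x := by
  simp only [ev, vl, sm]; ring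

/-- The dual forms: the disks `E i` -/
noncomputable def e (i : Fin 4) : Fm :=
  ![⟨0, 1, 0, 0⟩, ⟨0, -1, 0, 2⟩, ⟨2, -1, 0, 0⟩, ⟨2, -1, -2, 2⟩] i

/-- The forms of the four base circles -/
noncomputable def q (i : Fin 4) : Fm :=
  ![⟨2, -2, -1, 2⟩, ⟨2, 0, -1, 0⟩, ⟨0, 0, -1, 2⟩, ⟨0, 0, 1, 0⟩] i

/-- Reflection of forms -/
noncomputable def rf (i : Fin 4) (Q : Fm) : Fm := add Q (sm (- ip Q (e i)) (e i))

/-- The matrices of the reflections -/
noncomputable def mA (i : Fin 4) : Matrix (Fin 2) (Fin 2) ℂ :=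
  ![!![-1, 0; 0, 1], !![-1, 2; 0, 1], !![1, 0; 2, -1],
    !![1 + 2 * Complex.I, -2; 2, -1 + 2 * Complex.I]] i

lemma det_mA (i : Fin 4) : (mA i).det = -1 := by
  have h : Complex.I * Complex.I = -1 := Complex.I_mul_I
  fin_cases i <;> simp [mA, Matrix.det_fin_two]
  linear_combination 4 * h

/-- The matrices of the reflections -/
noncomputable def gA (i : Fin 4) : GL (Fin 2) ℂ :=
  Matrix.GeneralLinearGroup.mkOfDetNeZero (mA i) (by rw [det_mA]; norm_num)

lemma gA_apply (i : Fin 4) (a b : Fin 2) : gA i a b = mA i a b := rfl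

/-- The four reflections -/
noncomputable def R (i : Fin 4) : Equiv.Perm Sp := mob (gA i) * cjE

lemma R_apply (i : Fin 4) (x : Sp) : R i x = gA i • cj x := rfl

/-- how the reflections act on the values of forms -/
lemma ev_R (i : Fin 4) (x : Sp) : ∃ k : ℝ, 0 < k ∧ ∀ Q : Fm, ev (rf i Q) x = k * ev Q (R i x) := by
  obtain ⟨l, hl, h1, h2⟩ := smul_vec (gA i) (cj x)
  refine ⟨Complex.normSq l, Complex.normSq_pos.2 hl, fun Q => ?_⟩
  rw [R_apply]
  unfold ev
  rw [← vl_mul, ← h1, ← h2, w1_cj, w2_cj]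
  simp only [gA_apply]
  generalize w1 x = u
  generalize w2 x = v
  fin_cases i
  all_goals
    simp [vl, rf, add, sm, ip, e, mA, Complex.normSq_apply]
    ring

lemma mA_conj (i : Fin 4) : mA i * (mA i).map (starRingEnd ℂ) = 1 := by
  have h : Complex.I * Complex.I = -1 := Complex.I_mul_I
  have h2 : (starRingEnd ℂ) 2 = 2 := map_ofNat _ 2
  ext a b
  fin_cases i <;> fin_cases a <;> fin_cases b <;>
    simp [mA, Matrix.mul_apply, Fin.sum_univ_two, h2]
  all_goals (first | linear_combination (-4) * h | linear_combination 4 * h | linear_combination (0 : ℂ) * h)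

lemma gA_conj (i : Fin 4) : gA i * Matrix.GeneralLinearGroup.map (starRingEnd ℂ) (gA i) = 1 := by
  apply Units.ext
  exact mA_conj i

@[simp] lemma R_R (i : Fin 4) (x : Sp) : R i (R i x) = x := by
  rw [R_apply, R_apply, cj_smul, cj_cj, smul_smul, gA_conj, one_smul]

lemma R_mul_self (i : Fin 4) : R i * R i = 1 := by
  ext x; simp

@[simp] lemma R_inv (i : Fin 4) : (R i)⁻¹ = R i := by
  rw [inv_eq_iff_mul_eq_one]; exact R_mul_self i

/-! ### disks and circles -/

/-- closed dual disks -/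
def E (i : Fin 4) : Set Sp := {x | ev (e i) x ≤ 0}
/-- open dual disks -/
def I (i : Fin 4) : Set Sp := {x | ev (e i) x < 0}
/-- base circles -/
def C (i : Fin 4) : Set Sp := {x | ev (q i) x = 0}
/-- base open disks -/
def Dk (i : Fin 4) : Set Sp := {x | ev (q i) x < 0}

lemma I_subset_E (i : Fin 4) : I i ⊆ E i := by
  intro x hx
  simp only [I, E, Set.mem_ofPred_eq] at *
  exact hx.le

lemma ev_e_R (i : Fin 4) (x : Sp) : ∃ k : ℝ, 0 < k ∧ - ev (e i) x = k * ev (e i) (R i x) := by
  obtain ⟨k, hk, h⟩ := ev_R i x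
  refine ⟨k, hk, ?_⟩
  rw [← h (e i)]
  have : rf i (e i) = sm (-1) (e i) := by
    fin_cases i <;> simp [rf, add, sm, ip, e] <;> norm_num
  rw [this, ev_sm]; ring

lemma R_notMem_I {i : Fin 4} {x : Sp} : R i x ∉ I i ↔ x ∈ E i := by
  obtain ⟨k, hk, h⟩ := ev_e_R i x
  simp only [I, E, Set.mem_ofPred_eq, not_lt]
  constructor
  · intro h1; nlinarith [mul_nonneg hk.le h1]
  · intro h1
    by_contra h2
    push Not at h2
    nlinarith [mul_pos_of_neg_of_neg (neg_neg_of_pos hk) h2]

lemma R_mem_E {i : Fin 4} {x : Sp} : R i x ∈ E i ↔ x ∉ I i := by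
  have := R_notMem_I (i := i) (x := R i x)
  rw [R_R] at this
  exact this.symm

lemma R_mem_I {i : Fin 4} {x : Sp} : R i x ∈ I i ↔ x ∉ E i := by
  rw [← R_notMem_I, not_not]

lemma R_notMem_E {i : Fin 4} {x : Sp} : R i x ∉ E i ↔ x ∈ I i := by
  rw [R_mem_E, not_not]

lemma ev_q_R {i j : Fin 4} (hij : i ≠ j) (x : Sp) :
    ∃ k : ℝ, 0 < k ∧ ev (q j) x = k * ev (q j) (R i x) := by
  obtain ⟨k, hk, h⟩ := ev_R i x
  refine ⟨k, hk, ?_⟩
  rw [← h (q j)]
  have : rf i (q j) = q j := by
    fin_cases i <;> fin_cases j <;> simp_all [rf, add, sm, ip, e, q] <;> norm_num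
  rw [this]

lemma R_mem_C {i j : Fin 4} (hij : i ≠ j) {x : Sp} : R i x ∈ C j ↔ x ∈ C j := by
  obtain ⟨k, hk, h⟩ := ev_q_R hij x
  simp only [C, Set.mem_ofPred_eq, h]
  constructor
  · intro h1; rw [h1, mul_zero]
  · intro h1; exact (mul_eq_zero.1 h1).resolve_left hk.ne'

lemma R_mem_Dk {i j : Fin 4} (hij : i ≠ j) {x : Sp} : R i x ∈ Dk j ↔ x ∈ Dk j := by
  obtain ⟨k, hk, h⟩ := ev_q_R hij x
  simp only [Dk, Set.mem_ofPred_eq, h]
  constructor
  · intro h1; exact mul_neg_of_pos_of_neg hk h1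
  · intro h1
    by_contra h2
    push Not at h2
    nlinarith [mul_nonneg hk.le h2]

lemma ee_nonneg {i j : Fin 4} (hij : i ≠ j) (x : Sp) : 0 ≤ ev (e i) x + ev (e j) x := by
  induction x using OnePoint.rec with
  | infty => fin_cases i <;> fin_cases j <;> simp_all [e]
  | coe z =>
    fin_cases i <;> fin_cases j <;> simp_all [e, ev_coe] <;>
      nlinarith [sq_nonneg z.re, sq_nonneg z.im, sq_nonneg (z.re - 1), sq_nonneg (z.im - 1),
        sq_nonneg (2 * z.re - 1), sq_nonneg (2 * z.im - 1)]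

lemma qq_nonneg {i j : Fin 4} (hij : i ≠ j) (x : Sp) : 0 ≤ ev (q i) x + ev (q j) x := by
  induction x using OnePoint.rec with
  | infty => fin_cases i <;> fin_cases j <;> simp_all [q]
  | coe z =>
    fin_cases i <;> fin_cases j <;> simp_all [q, ev_coe] <;>
      nlinarith [sq_nonneg z.re, sq_nonneg z.im, sq_nonneg (z.re - 1), sq_nonneg (z.im - 1),
        sq_nonneg (2 * z.re - 1), sq_nonneg (2 * z.im - 1)]

lemma eq_pos (i : Fin 4) (x : Sp) : 0 < ev (e i) x + ev (q i) x := by
  induction x using OnePoint.rec with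
  | infty => fin_cases i <;> simp [e, q]
  | coe z =>
    fin_cases i <;> simp [e, q, ev_coe] <;>
      nlinarith [sq_nonneg z.re, sq_nonneg z.im, sq_nonneg (z.re - 1), sq_nonneg (z.im - 1),
        sq_nonneg (2 * z.re - 1), sq_nonneg (2 * z.im - 1)]

lemma eee_pos {a b c : Fin 4} (hab : a ≠ b) (hac : a ≠ c) (hbc : b ≠ c) (x : Sp) :
    0 < ev (e a) x + ev (e b) x + ev (e c) x := by
  induction x using OnePoint.rec with
  | infty =>
    fin_cases a <;> fin_cases b <;> fin_cases c <;> simp_all [e]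
  | coe z =>
    fin_cases a <;> fin_cases b <;> fin_cases c <;> simp_all [e, ev_coe] <;>
      nlinarith [sq_nonneg z.re, sq_nonneg z.im, sq_nonneg (z.re - 1), sq_nonneg (z.im - 1),
        sq_nonneg (2 * z.re - 1), sq_nonneg (2 * z.im - 1)]

lemma E_I_disj {i j : Fin 4} (hij : i ≠ j) {x : Sp} (hx : x ∈ E i) : x ∉ I j := by
  intro h
  have := ee_nonneg hij x
  simp only [E, I, Set.mem_ofPred_eq] at hx h
  linarith

lemma C_E_disj {i : Fin 4} {x : Sp} (hx : x ∈ C i) : x ∉ E i := by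
  intro h
  have := eq_pos i x
  simp only [E, C, Set.mem_ofPred_eq] at hx h
  linarith

lemma Dk_E_disj {i : Fin 4} {x : Sp} (hx : x ∈ Dk i) : x ∉ E i := by
  intro h
  have := eq_pos i x
  simp only [E, Dk, Set.mem_ofPred_eq] at hx h
  linarith

lemma C_Dk_disj {i j : Fin 4} {x : Sp} (hx : x ∈ C i) : x ∉ Dk j := by
  intro h
  by_cases hij : i = j
  · subst hij
    simp only [C, Dk, Set.mem_ofPred_eq] at hx h
    linarith
  · have := qq_nonneg hij x
    simp only [C, Dk, Set.mem_ofPred_eq] at hx h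
    linarith

end Pool.Agent.N78.AP
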