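import Pool.Agent.N78.AP.Words

/-!
# The circles of the packing and their coverings by nodes
-/

set_option autoImplicit false

open Topology Filter ComplexConjugate

namespace Pool.Agent.N78.AP

/-- the group element given by a word -/
noncomputable def r (u : List (Fin 4)) : Equiv.Perm Sp := (u.map R).prod

@[simp] lemma r_nil : r [] = 1 := rfl
lemma r_cons (i : Fin 4) (u : List (Fin 4)) : r (i :: u) = R i * r u := by simp [r]
lemma r_append (u v : List (Fin 4)) : r (u ++ v) = r u * r v := by simp [r]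

/-- the circles of the packing -/
def Or : Set (Set Sp) := {S | ∃ (u : List (Fin 4)) (j : Fin 4), S = (r u) '' C j}

lemma r_cons_image (i : Fin 4) (u : List (Fin 4)) (S : Set Sp) :
    (r (i :: u)) '' S = (R i) '' ((r u) '' S) := by
  rw [r_cons, ← Set.image_comp]; rfl

lemma R_image_image (i : Fin 4) (S : Set Sp) : (R i) '' ((R i) '' S) = S := by
  have h : (R i ∘ R i : Sp → Sp) = id := funext fun x => by simp
  rw [← Set.image_comp, h, Set.image_id]

lemma R_image_C {i j : Fin 4} (hij : i ≠ j) : (R i) '' C j = C j := by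
  ext x
  rw [mem_R_image, R_mem_C hij]

lemma R_image_C_self (i : Fin 4) : (R i) '' C i ⊆ I i := by
  intro x hx
  rw [mem_R_image] at hx
  have := R_mem_I.2 (C_E_disj hx)
  rwa [R_R] at this

/-- structure of the circles -/
lemma circ_st : ∀ (n : ℕ) (u : List (Fin 4)) (j : Fin 4), u.length = n →
    (∃ k, (r u) '' C j = C k) ∨ ∃ i, (r u) '' C j ⊆ I i ∧
      ∃ (u' : List (Fin 4)) (j' : Fin 4), u'.length < u.length ∧
        (R i) '' ((r u) '' C j) = (r u') '' C j' := by
  intro n
  induction n using Nat.strong_induction_on with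
  | _ n ih =>
  intro u j hn
  rcases u with _ | ⟨i, u⟩
  · left; exact ⟨j, by simp⟩
  · rw [r_cons_image]
    have hl : u.length < n := by rw [← hn]; simp
    rcases ih _ hl u j rfl with ⟨k, hk⟩ | ⟨k, hk, u', j', hl', h'⟩
    · rw [hk]
      by_cases hik : i = k
      · subst hik
        right
        refine ⟨i, R_image_C_self i, [], i, by simp, ?_⟩
        rw [R_image_image]; simp
      · left; exact ⟨k, R_image_C hik⟩
    · by_cases hik : i = k
      · subst hik
        rw [h']
        rcases ih _ (hl'.trans hl) u' j' rfl with ⟨m, hm⟩ | ⟨m, hm, u'', j'', hl'', h''⟩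
        · left; exact ⟨m, hm⟩
        · right
          refine ⟨m, hm, u'', j'', ?_, h''⟩
          simp; omega
      · right
        refine ⟨i, ?_, u, j, by simp, ?_⟩
        · intro x hx
          rw [mem_R_image] at hx
          have h1 := hk hx
          have h2 : R i x ∉ E i := fun h3 => E_I_disj hik h3 h1
          have h3 := R_mem_I.2 h2
          rwa [R_R] at h3
        · rw [R_image_image]

/-- an induction principle for the circles -/
lemma Or_ind {P : Set Sp → Prop} (h0 : ∀ k, P (C k))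
    (h1 : ∀ i S, S ⊆ I i → (R i) '' S ∈ Or → P ((R i) '' S) → P S) : ∀ S ∈ Or, P S := by
  have key : ∀ (n : ℕ) (u : List (Fin 4)) (j : Fin 4), u.length = n → P ((r u) '' C j) := by
    intro n
    induction n using Nat.strong_induction_on with
    | _ n ih =>
    intro u j hn
    rcases circ_st n u j hn with ⟨k, hk⟩ | ⟨i, hi, u', j', hl, h⟩
    · rw [hk]; exact h0 k
    · refine h1 i _ hi ⟨u', j', h⟩ ?_
      rw [h]
      exact ih _ (by omega) u' j' rfl
  rintro S ⟨u, j, rfl⟩
  exact key _ u j rfl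

lemma Or_R (i : Fin 4) {S : Set Sp} (hS : S ∈ Or) : (R i) '' S ∈ Or := by
  obtain ⟨u, j, rfl⟩ := hS
  exact ⟨i :: u, j, by rw [r_cons_image]⟩

lemma Or_C (j : Fin 4) : C j ∈ Or := ⟨[], j, by simp⟩

lemma Or_r (u : List (Fin 4)) {S : Set Sp} (hS : S ∈ Or) : (r u) '' S ∈ Or := by
  induction u with
  | nil => simpa using hS
  | cons i u ih => rw [r_cons_image]; exact Or_R i ih

lemma Or_Dk (l : Fin 4) : ∀ S ∈ Or, ∀ x ∈ S, x ∉ Dk l := by
  apply Or_ind
  · intro k x hx; exact C_Dk_disj hx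
  · intro i S hS _ ih x hx h
    by_cases hil : i = l
    · subst hil
      exact Dk_E_disj h (I_subset_E i (hS hx))
    · exact ih (R i x) ⟨x, hx, rfl⟩ ((R_mem_Dk hil).2 h)

/-- tangency points -/
noncomputable def tp (k l : Fin 4) : Sp :=
  ![![OnePoint.infty, (((1 + Complex.I) / 2 : ℂ) : Sp), ((1 + Complex.I : ℂ) : Sp), ((1 : ℂ) : Sp)],
    ![(((1 + Complex.I) / 2 : ℂ) : Sp), OnePoint.infty, ((Complex.I : ℂ) : Sp), ((0 : ℂ) : Sp)],
    ![((1 + Complex.I : ℂ) : Sp), ((Complex.I : ℂ) : Sp), OnePoint.infty, OnePoint.infty],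
    ![((1 : ℂ) : Sp), ((0 : ℂ) : Sp), OnePoint.infty, OnePoint.infty]] k l

lemma eq_tp {k l : Fin 4} (hkl : k ≠ l) {x : Sp} (h1 : x ∈ C k) (h2 : x ∈ C l) : x = tp k l := by
  simp only [C, Set.mem_ofPred_eq] at h1 h2
  induction x using OnePoint.rec with
  | infty =>
    fin_cases k <;> fin_cases l <;> simp_all [q, tp]
  | coe z =>
    rw [ev_coe] at h1 h2
    fin_cases k <;> fin_cases l <;> simp [q, tp] at h1 h2 hkl ⊢
    all_goals first
      | (exfalso; nlinarith)
      | (apply Complex.ext <;> simp <;>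
          nlinarith [sq_nonneg z.re, sq_nonneg z.im, sq_nonneg (z.re - 1), sq_nonneg (z.im - 1),
            sq_nonneg (2 * z.re - 1), sq_nonneg (2 * z.im - 1)])

/-- two different circles meet in at most one point -/
lemma Or_meet (l : Fin 4) : ∀ S ∈ Or, S = C l ∨ ∀ x ∈ S, x ∈ C l → ∀ y ∈ S, y ∈ C l → x = y := by
  apply Or_ind
  · intro k
    by_cases hkl : k = l
    · left; rw [hkl]
    · right
      intro x hx hx' y hy hy'
      rw [eq_tp hkl hx hx', eq_tp hkl hy hy']
  · intro i S hS _ ih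
    by_cases hil : i = l
    · subst hil
      right
      intro x hx hx'
      exact absurd (I_subset_E i (hS hx)) (C_E_disj hx')
    · rcases ih with h | h
      · left
        rw [← R_image_image i S, h, R_image_C hil]
      · right
        intro x hx hx' y hy hy'
        have := h (R i x) ⟨x, hx, rfl⟩ ((R_mem_C hil).2 hx') (R i y) ⟨y, hy, rfl⟩
          ((R_mem_C hil).2 hy')
        exact (R i).injective this

/-! ### covering -/

lemma desc (x : Sp) : 2 * (ev (e 0) x ^ 2 + ev (e 1) x ^ 2 + ev (e 2) x ^ 2 + ev (e 3) x ^ 2) =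
    (ev (e 0) x + ev (e 1) x + ev (e 2) x + ev (e 3) x) ^ 2 := by
  induction x using OnePoint.rec with
  | infty => simp [e]; norm_num
  | coe z => simp [e, ev_coe]; ring

lemma q_rel (k : Fin 4) (x : Sp) :
    2 * ev (q k) x = ev (e 0) x + ev (e 1) x + ev (e 2) x + ev (e 3) x - 2 * ev (e k) x := by
  induction x using OnePoint.rec with
  | infty => fin_cases k <;> simp [e, q] <;> norm_num
  | coe z => fin_cases k <;> simp [e, q, ev_coe] <;> ring

lemma base_cover {k i : Fin 4} {x : Sp} (hx : x ∈ C k) (hi : x ∉ I i) : ∃ j, j ≠ i ∧ x ∈ E j := by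
  by_contra hcon
  push Not at hcon
  have h1 := desc x
  have h2 := q_rel k x
  simp only [C, I, E, Set.mem_ofPred_eq, not_lt, not_le] at hx hi hcon
  rw [hx] at h2
  have hn : ∀ j, 0 ≤ ev (e j) x := by
    intro j
    by_cases hj : j = i
    · rw [hj]; exact hi
    · exact (hcon j hj).le
  have n0 := hn 0
  have n1 := hn 1
  have n2 := hn 2
  have n3 := hn 3
  have c0 := hcon 0
  have c1 := hcon 1
  have c2 := hcon 2
  have c3 := hcon 3
  clear hn hcon
  fin_cases k <;> fin_cases i <;> simp at h2 c0 c1 c2 c3 hi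
  all_goals
    generalize ev (e 0) x = t0 at *
    generalize ev (e 1) x = t1 at *
    generalize ev (e 2) x = t2 at *
    generalize ev (e 3) x = t3 at *
    clear hx hi
    first
    | nlinarith [mul_pos c1 c2, mul_nonneg n1 n3, mul_nonneg n2 n3]
    | nlinarith [mul_pos c1 c3, mul_nonneg n1 n2, mul_nonneg n2 n3]
    | nlinarith [mul_pos c2 c3, mul_nonneg n1 n2, mul_nonneg n1 n3]
    | nlinarith [mul_pos c0 c2, mul_nonneg n0 n3, mul_nonneg n2 n3]
    | nlinarith [mul_pos c0 c3, mul_nonneg n0 n2, mul_nonneg n2 n3]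
    | nlinarith [mul_pos c2 c3, mul_nonneg n0 n2, mul_nonneg n0 n3]
    | nlinarith [mul_pos c0 c1, mul_nonneg n0 n3, mul_nonneg n1 n3]
    | nlinarith [mul_pos c0 c3, mul_nonneg n0 n1, mul_nonneg n1 n3]
    | nlinarith [mul_pos c1 c3, mul_nonneg n0 n1, mul_nonneg n0 n3]
    | nlinarith [mul_pos c0 c1, mul_nonneg n0 n2, mul_nonneg n1 n2]
    | nlinarith [mul_pos c0 c2, mul_nonneg n0 n1, mul_nonneg n1 n2]
    | nlinarith [mul_pos c1 c2, mul_nonneg n0 n1, mul_nonneg n0 n2]

lemma Or_cover {S : Set Sp} (hS : S ∈ Or) {i : Fin 4} {x : Sp} (hx : x ∈ S) (hi : x ∉ I i) :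
    ∃ j, j ≠ i ∧ x ∈ E j := by
  revert x
  revert S
  apply Or_ind
  · intro k x hx hi; exact base_cover hx hi
  · intro k S hS _ _ x hx hi
    refine ⟨k, ?_, I_subset_E k (hS hx)⟩
    rintro rfl
    exact hi (hS hx)

/-- the nodes of every depth cover the circles -/
lemma node_cover : ∀ (n : ℕ) {S : Set Sp}, S ∈ Or → ∀ {i : Fin 4} {x : Sp}, x ∈ S → x ∉ I i →
    ∃ (j : Fin 4) (t : List (Fin 4)), j ≠ i ∧ t.length = n ∧ Rd (j :: t) ∧ x ∈ N (j :: t) := by
  intro n
  induction n with
  | zero =>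
    intro S hS i x hx hi
    obtain ⟨j, hj, hx'⟩ := Or_cover hS hx hi
    exact ⟨j, [], hj, rfl, by simp [Rd], hx'⟩
  | succ n ih =>
    intro S hS i x hx hi
    obtain ⟨j, hj, hx'⟩ := Or_cover hS hx hi
    obtain ⟨k, t, hk, ht, hr, hxk⟩ := ih (Or_R j hS) (i := j) ⟨x, hx, rfl⟩ (R_notMem_I.2 hx')
    refine ⟨j, k :: t, hj, by simp [ht], Rd.cons hk.symm hr, ?_⟩
    rw [mem_N_cons (by simp)]
    exact hxk

lemma exists_notMem_I (x : Sp) : ∃ i, x ∉ I i := by
  by_contra h
  push Not at h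
  exact E_I_disj (i := 0) (j := 1) (by decide) (I_subset_E 0 (h 0)) (h 1)

lemma node_cover' (n : ℕ) {S : Set Sp} (hS : S ∈ Or) {x : Sp} (hx : x ∈ S) :
    ∃ u : List (Fin 4), u.length = n + 1 ∧ Rd u ∧ x ∈ N u := by
  obtain ⟨i, hi⟩ := exists_notMem_I x
  obtain ⟨j, t, _, ht, hr, h⟩ := node_cover n hS hx hi
  exact ⟨j :: t, by simp [ht], hr, h⟩

/-! ### forms of the nodes -/

/-- the form of a node -/
noncomputable def F : List (Fin 4) → Fm
  | [] => ⟨0, 0, 0, 0⟩
  | [i] => e i
  | i :: j :: t => rf i (F (j :: t))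

lemma F_cons {i : Fin 4} {t : List (Fin 4)} (ht : t ≠ []) : F (i :: t) = rf i (F t) := by
  obtain ⟨j, s, rfl⟩ := List.exists_cons_of_ne_nil ht
  rfl

lemma mem_N_iff : ∀ (u : List (Fin 4)), u ≠ [] → ∀ x, x ∈ N u ↔ ev (F u) x ≤ 0
  | [], h, _ => absurd rfl h
  | [i], _, x => Iff.rfl
  | i :: j :: t, _, x => by
    rw [mem_N_cons (i := i) (t := j :: t) (by simp), mem_N_iff (j :: t) (by simp) (R i x),
      F_cons (i := i) (t := j :: t) (by simp)]
    obtain ⟨k, hk, h⟩ := ev_R i x
    rw [h]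
    constructor
    · intro h1; nlinarith [mul_nonneg hk.le (neg_nonneg.2 h1)]
    · intro h1
      by_contra h2
      push Not at h2
      nlinarith [mul_pos hk h2]

lemma norm_rf (i : Fin 4) (Q : Fm) :
    (rf i Q).b ^ 2 + (rf i Q).c ^ 2 - (rf i Q).A * (rf i Q).D = Q.b ^ 2 + Q.c ^ 2 - Q.A * Q.D := by
  fin_cases i <;> simp [rf, add, sm, ip, e] <;> ring

lemma norm_F : ∀ (u : List (Fin 4)), u ≠ [] → (F u).b ^ 2 + (F u).c ^ 2 - (F u).A * (F u).D = 1
  | [], h => absurd rfl h
  | [i], _ => by fin_cases i <;> simp [F, e] <;> norm_num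
  | i :: j :: t, _ => by rw [F_cons (by simp), norm_rf]; exact norm_F (j :: t) (by simp)

/-- the vector of the forms in front of a word -/
noncomputable def V (u : List (Fin 4)) (i : Fin 4) : Fm := u.foldr rf (e i)

lemma F_append (u : List (Fin 4)) (l : Fin 4) : F (u ++ [l]) = V u l := by
  induction u with
  | nil => rfl
  | cons i u ih =>
    rw [List.cons_append, F_cons (by simp), ih]; rfl

lemma rf_lin (i : Fin 4) (P Q : Fm) (t : ℝ) : rf i (add P (sm t Q)) = add (rf i P) (sm t (rf i Q)) := by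
  ext <;> simp [rf, add, sm, ip] <;> ring

lemma foldr_lin (u : List (Fin 4)) (P Q : Fm) (t : ℝ) :
    u.foldr rf (add P (sm t Q)) = add (u.foldr rf P) (sm t (u.foldr rf Q)) := by
  induction u with
  | nil => rfl
  | cons i u ih => simp only [List.foldr_cons, ih, rf_lin]

lemma rf_e {i l : Fin 4} (h : i ≠ l) : rf l (e i) = add (e i) (sm 2 (e l)) := by
  fin_cases i <;> fin_cases l <;> simp_all [rf, ip, e] <;> norm_num

lemma rf_e_self (l : Fin 4) : rf l (e l) = add (e l) (sm (-2) (e l)) := by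
  fin_cases l <;> simp [rf, ip, e] <;> norm_num

lemma V_append (u : List (Fin 4)) {i l : Fin 4} (h : i ≠ l) :
    V (u ++ [l]) i = add (V u i) (sm 2 (V u l)) := by
  simp only [V, List.foldr_append, List.foldr_cons, List.foldr_nil, rf_e h, foldr_lin]

lemma V_append_self (u : List (Fin 4)) (l : Fin 4) :
    V (u ++ [l]) l = add (V u l) (sm (-2) (V u l)) := by
  simp only [V, List.foldr_append, List.foldr_cons, List.foldr_nil, rf_e_self, foldr_lin]

lemma VA_append (u : List (Fin 4)) {i l : Fin 4} (h : i ≠ l) :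
    (V (u ++ [l]) i).A = (V u i).A + 2 * (V u l).A := by rw [V_append u h]; simp [add, sm]

lemma VA_append_self (u : List (Fin 4)) (l : Fin 4) :
    (V (u ++ [l]) l).A = - (V u l).A := by rw [V_append_self u]; simp [add, sm]; ring

end Pool.Agent.N78.AP
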