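import Pool.Agent.N78.AP.Orbit

/-!
# Orbits accumulate only on the closure of the packing

The projection coordinates `tX`, `tY`, `tZ` and their continuity are as in
`Pool.Agent.R787.Sphere`.
-/

set_option autoImplicit false

open Topology Filter ComplexConjugate

namespace Pool.Agent.N78.AP

/-- squared norm of the homogeneous coordinate vector -/
noncomputable def nC (x : Sp) : ℝ := Complex.normSq (w1 x) + Complex.normSq (w2 x)

lemma nC_pos (x : Sp) : 0 < nC x := by
  induction x using OnePoint.rec with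
  | infty => simp [nC]
  | coe x =>
    simp only [nC, w1_coe, w2_coe, map_one]
    have := Complex.normSq_nonneg x
    positivity

/-- entry of the projection on the line of a point of the sphere -/
noncomputable def tX (x : Sp) : ℝ := Complex.normSq (w1 x) / nC x
/-- entry of the projection on the line of a point of the sphere -/
noncomputable def tY (x : Sp) : ℂ := w1 x * conj (w2 x) / (nC x : ℂ)
/-- entry of the projection on the line of a point of the sphere -/
noncomputable def tZ (x : Sp) : ℝ := Complex.normSq (w2 x) / nC x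

lemma tX_add_tZ (x : Sp) : tX x + tZ x = 1 := by
  have := (nC_pos x).ne'
  unfold tX tZ
  rw [← add_div]
  exact div_self this

lemma normSq_tY (x : Sp) : Complex.normSq (tY x) = tX x * tZ x := by
  have := (nC_pos x).ne'
  unfold tX tZ tY
  rw [Complex.normSq_div, Complex.normSq_mul, Complex.normSq_conj, Complex.normSq_ofReal]
  field_simp

lemma tZ_nonneg (x : Sp) : 0 ≤ tZ x := div_nonneg (Complex.normSq_nonneg _) (nC_pos x).le
lemma tX_nonneg (x : Sp) : 0 ≤ tX x := div_nonneg (Complex.normSq_nonneg _) (nC_pos x).le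

lemma tendsto_inv_sqC : Tendsto (fun x : ℂ => (Complex.normSq x + 1)⁻¹) (coclosedCompact ℂ)
    (𝓝 0) := by
  rw [coclosedCompact_eq_cocompact]
  apply Tendsto.inv_tendsto_atTop
  apply tendsto_atTop_add_const_right
  have : Tendsto (fun x : ℂ => ‖x‖ ^ 2) (cocompact ℂ) atTop :=
    (tendsto_pow_atTop two_ne_zero).comp tendsto_norm_cocompact_atTop
  refine this.congr fun x => ?_
  rw [Complex.normSq_eq_norm_sq]

lemma continuous_tZ : Continuous tZ := by
  rw [OnePoint.continuous_iff]
  constructor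
  · have : tZ OnePoint.infty = 0 := by simp [tZ]
    rw [this]
    refine tendsto_inv_sqC.congr fun x => ?_
    simp [tZ, nC]
  · have : (fun x : ℂ => tZ (x : Sp)) = fun x => 1 / (Complex.normSq x + 1) := by
      ext x; simp [tZ, nC]
    rw [this]
    exact continuous_const.div (Complex.continuous_normSq.add continuous_const) fun x => by
      have := Complex.normSq_nonneg x
      positivity

lemma continuous_tX : Continuous tX := by
  have : tX = fun x => 1 - tZ x := by
    ext x; linarith [tX_add_tZ x]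
  rw [this]
  exact continuous_const.sub continuous_tZ

lemma continuous_tY : Continuous tY := by
  rw [OnePoint.continuous_iff]
  constructor
  · have h0 : tY OnePoint.infty = 0 := by simp [tY]
    rw [h0]
    rw [tendsto_zero_iff_norm_tendsto_zero]
    have h1 : Tendsto (fun x : ℂ => Real.sqrt (tZ (x : Sp))) (coclosedCompact ℂ) (𝓝 0) := by
      have h2 : Tendsto (fun x : ℂ => tZ (x : Sp)) (coclosedCompact ℂ) (𝓝 0) := by
        refine tendsto_inv_sqC.congr fun x => ?_
        simp [tZ, nC]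
      have := (Real.continuous_sqrt.tendsto 0).comp h2
      rw [Real.sqrt_zero] at this
      exact this
    refine squeeze_zero (fun x => norm_nonneg _) (fun x => ?_) h1
    apply Real.le_sqrt_of_sq_le
    rw [← Complex.normSq_eq_norm_sq]
    have e : Complex.normSq (tY (x : Sp)) = tX (x : Sp) * tZ (x : Sp) := normSq_tY _
    have h3 := tX_add_tZ (x : Sp)
    have h4 := tZ_nonneg (x : Sp)
    calc Complex.normSq (tY (x : Sp)) = tX (x : Sp) * tZ (x : Sp) := e
      _ ≤ 1 * tZ (x : Sp) := by gcongr; linarith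
      _ = tZ (x : Sp) := one_mul _
  · have : (fun x : ℂ => tY (x : Sp)) = fun x => x / ((Complex.normSq x + 1 : ℝ) : ℂ) := by
      ext x; simp [tY, nC]
    rw [this]
    refine continuous_id.div (Complex.continuous_ofReal.comp
      (Complex.continuous_normSq.add continuous_const)) fun x => ?_
    have := Complex.normSq_nonneg x
    have : Complex.normSq x + 1 ≠ 0 := by positivity
    exact_mod_cast this

/-- the square of the chordal distance -/
noncomputable def sg (x y : Sp) : ℝ :=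
  Complex.normSq (w1 x * w2 y - w2 x * w1 y) / (nC x * nC y)

lemma sg_eq (x y : Sp) : sg x y = tX x * tZ y + tZ x * tX y - 2 * (tY x * conj (tY y)).re := by
  have hx := (nC_pos x).ne'
  have hy := (nC_pos y).ne'
  have h : tY x * conj (tY y) =
      ((w1 x * conj (w2 x) * conj (w1 y) * w2 y) : ℂ) / ((nC x * nC y : ℝ) : ℂ) := by
    unfold tY
    rw [map_div₀, map_mul, Complex.conj_conj, Complex.conj_ofReal]
    push_cast
    field_simp
  rw [h, Complex.div_ofReal_re]
  unfold sg tX tZ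
  field_simp
  simp only [Complex.normSq_apply, Complex.sub_re, Complex.sub_im, Complex.mul_re, Complex.mul_im,
    Complex.conj_re, Complex.conj_im]
  ring

lemma sg_cont : Continuous (fun p : Sp × Sp => sg p.1 p.2) := by
  have h : (fun p : Sp × Sp => sg p.1 p.2) = fun p => tX p.1 * tZ p.2 + tZ p.1 * tX p.2 -
      2 * (tY p.1 * conj (tY p.2)).re := by
    ext p; exact sg_eq _ _
  rw [h]
  have a1 := continuous_tX.comp (continuous_fst (X := Sp) (Y := Sp))
  have a2 := continuous_tX.comp (continuous_snd (X := Sp) (Y := Sp))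
  have b1 := continuous_tZ.comp (continuous_fst (X := Sp) (Y := Sp))
  have b2 := continuous_tZ.comp (continuous_snd (X := Sp) (Y := Sp))
  have c1 := continuous_tY.comp (continuous_fst (X := Sp) (Y := Sp))
  have c2 := continuous_tY.comp (continuous_snd (X := Sp) (Y := Sp))
  exact ((a1.mul b2).add (b1.mul a2)).sub (continuous_const.mul
    (Complex.continuous_re.comp (c1.mul (Complex.continuous_conj.comp c2))))

lemma sg_pos {x y : Sp} (h : x ≠ y) : 0 < sg x y := by
  apply div_pos
  · rw [Complex.normSq_pos, sub_ne_zero]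
    exact fun h' => h (ext_iff.2 h')
  · exact mul_pos (nC_pos x) (nC_pos y)

lemma sg_self (x : Sp) : sg x x = 0 := by
  unfold sg
  rw [mul_comm (w1 x), sub_self]
  simp

lemma sg_le_one (x y : Sp) : sg x y ≤ 1 := by
  unfold sg
  rw [div_le_one (mul_pos (nC_pos x) (nC_pos y))]
  unfold nC
  have h : (Complex.normSq (w1 x) + Complex.normSq (w2 x)) *
      (Complex.normSq (w1 y) + Complex.normSq (w2 y)) =
      Complex.normSq (w1 x * w2 y - w2 x * w1 y) +
      Complex.normSq (w1 x * conj (w1 y) + w2 x * conj (w2 y)) := by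
    simp only [Complex.normSq_apply, Complex.sub_re, Complex.sub_im, Complex.mul_re,
      Complex.mul_im, Complex.add_re, Complex.add_im, Complex.conj_re, Complex.conj_im]
    ring
  rw [h]
  have := Complex.normSq_nonneg (w1 x * conj (w1 y) + w2 x * conj (w2 y))
  linarith

lemma sg_zero_infty : sg ((0 : ℂ) : Sp) OnePoint.infty = 1 := by
  simp [sg, nC]

/-! ### words as matrices -/

/-- Gaussian integers -/
def isGI (z : ℂ) : Prop := ∃ m n : ℤ, z = m + n * Complex.I

lemma isGI.add {z w : ℂ} (hz : isGI z) (hw : isGI w) : isGI (z + w) := by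
  obtain ⟨a, b, rfl⟩ := hz
  obtain ⟨c, d, rfl⟩ := hw
  exact ⟨a + c, b + d, by push_cast; ring⟩

lemma isGI.mul {z w : ℂ} (hz : isGI z) (hw : isGI w) : isGI (z * w) := by
  obtain ⟨a, b, rfl⟩ := hz
  obtain ⟨c, d, rfl⟩ := hw
  refine ⟨a * c - b * d, a * d + b * c, ?_⟩
  push_cast
  linear_combination (b * d : ℂ) * Complex.I_mul_I

lemma isGI.cj {z : ℂ} (hz : isGI z) : isGI (conj z) := by
  obtain ⟨a, b, rfl⟩ := hz
  refine ⟨a, -b, ?_⟩
  rw [map_add, map_mul, Complex.conj_I, map_intCast, map_intCast]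
  push_cast
  ring

lemma isGI_gA (i : Fin 4) (a b : Fin 2) : isGI (gA i a b) := by
  rw [gA_apply]
  have h0 : isGI 0 := ⟨0, 0, by simp⟩
  have h1 : isGI 1 := ⟨1, 0, by simp⟩
  have h2 : isGI (-1) := ⟨-1, 0, by simp⟩
  have h3 : isGI 2 := ⟨2, 0, by simp⟩
  have h4 : isGI (-2) := ⟨-2, 0, by simp⟩
  have h5 : isGI (1 + 2 * Complex.I) := ⟨1, 2, by simp⟩
  have h6 : isGI (-1 + 2 * Complex.I) := ⟨-1, 2, by simp⟩
  fin_cases i <;> fin_cases a <;> fin_cases b <;> simp [mA] <;> assumption

/-- conjugate or not -/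
noncomputable def cjb (fl : Bool) (x : Sp) : Sp := if fl then cj x else x

lemma w1_cjb (fl : Bool) (x : Sp) : w1 (cjb (!fl) x) = conj (w1 (cjb fl x)) := by
  cases fl <;> simp [cjb]

lemma w2_cjb (fl : Bool) (x : Sp) : w2 (cjb (!fl) x) = conj (w2 (cjb fl x)) := by
  cases fl <;> simp [cjb]

lemma word_mat (u : List (Fin 4)) : ∃ a b c d : ℂ, isGI a ∧ isGI b ∧ isGI c ∧ isGI d ∧
    Complex.normSq (a * d - b * c) = 1 ∧ ∃ fl : Bool, ∀ x, ∃ l : ℂ, l ≠ 0 ∧
      a * w1 (cjb fl x) + b * w2 (cjb fl x) = l * w1 (r u x) ∧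
      c * w1 (cjb fl x) + d * w2 (cjb fl x) = l * w2 (r u x) := by
  induction u with
  | nil =>
    refine ⟨1, 0, 0, 1, ⟨1, 0, by simp⟩, ⟨0, 0, by simp⟩, ⟨0, 0, by simp⟩, ⟨1, 0, by simp⟩,
      by simp, false, fun x => ⟨1, one_ne_zero, by simp [cjb], by simp [cjb]⟩⟩
  | cons i u ih =>
    obtain ⟨a, b, c, d, ha, hb, hc, hd, hdet, fl, h⟩ := ih
    refine ⟨gA i 0 0 * conj a + gA i 0 1 * conj c, gA i 0 0 * conj b + gA i 0 1 * conj d,
      gA i 1 0 * conj a + gA i 1 1 * conj c, gA i 1 0 * conj b + gA i 1 1 * conj d,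
      ((isGI_gA i 0 0).mul ha.cj).add ((isGI_gA i 0 1).mul hc.cj),
      ((isGI_gA i 0 0).mul hb.cj).add ((isGI_gA i 0 1).mul hd.cj),
      ((isGI_gA i 1 0).mul ha.cj).add ((isGI_gA i 1 1).mul hc.cj),
      ((isGI_gA i 1 0).mul hb.cj).add ((isGI_gA i 1 1).mul hd.cj), ?_, !fl, fun x => ?_⟩
    · have h1 : gA i 0 0 * gA i 1 1 - gA i 0 1 * gA i 1 0 = -1 := by
        rw [gA_apply, gA_apply, gA_apply, gA_apply, ← Matrix.det_fin_two]
        exact det_mA i
      have h2 : (gA i 0 0 * conj a + gA i 0 1 * conj c) * (gA i 1 0 * conj b + gA i 1 1 * conj d) -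
          (gA i 0 0 * conj b + gA i 0 1 * conj d) * (gA i 1 0 * conj a + gA i 1 1 * conj c) =
          - conj (a * d - b * c) := by
        rw [map_sub, map_mul, map_mul]
        linear_combination (conj a * conj d - conj b * conj c) * h1
      rw [h2, Complex.normSq_neg, Complex.normSq_conj, hdet]
    · obtain ⟨l, hl, h1, h2⟩ := h x
      obtain ⟨l', hl', h3, h4⟩ := smul_vec (gA i) (cj (r u x))
      have e : r (i :: u) x = gA i • cj (r u x) := by
        rw [r_cons]; rfl
      rw [← e, w1_cj, w2_cj] at h3 h4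
      refine ⟨conj l * l', mul_ne_zero ((map_ne_zero _).2 hl) hl', ?_, ?_⟩
      · rw [w1_cjb, w2_cjb, mul_assoc, ← h3]
        have k1 := congrArg conj h1
        have k2 := congrArg conj h2
        rw [map_add, map_mul, map_mul, map_mul] at k1 k2
        linear_combination gA i 0 0 * k1 + gA i 0 1 * k2
      · rw [w1_cjb, w2_cjb, mul_assoc, ← h4]
        have k1 := congrArg conj h1
        have k2 := congrArg conj h2
        rw [map_add, map_mul, map_mul, map_mul] at k1 k2
        linear_combination gA i 1 0 * k1 + gA i 1 1 * k2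

lemma normSq_cjb (fl : Bool) (x y : Sp) :
    Complex.normSq (w1 (cjb fl x) * w2 (cjb fl y) - w2 (cjb fl x) * w1 (cjb fl y)) =
      Complex.normSq (w1 x * w2 y - w2 x * w1 y) := by
  cases fl
  · simp [cjb]
  · simp only [cjb, if_true, w1_cj, w2_cj]
    rw [← map_mul, ← map_mul, ← map_sub, Complex.normSq_conj]

/-- the derivative cocycle -/
noncomputable def qw (a b c d : ℂ) (fl : Bool) (x : Sp) : ℝ :=
  (Complex.normSq (a * w1 (cjb fl x) + b * w2 (cjb fl x)) +
    Complex.normSq (c * w1 (cjb fl x) + d * w2 (cjb fl x))) / nC x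

lemma qw_infty (a b c d : ℂ) (fl : Bool) : qw a b c d fl OnePoint.infty =
    Complex.normSq a + Complex.normSq c := by
  cases fl <;> simp [qw, cjb, nC]

lemma qw_zero (a b c d : ℂ) (fl : Bool) : qw a b c d fl ((0 : ℂ) : Sp) =
    Complex.normSq b + Complex.normSq d := by
  cases fl <;> simp [qw, cjb, nC]

section
variable {u : List (Fin 4)} {a b c d : ℂ} {fl : Bool}
  (hdet : Complex.normSq (a * d - b * c) = 1)
  (h : ∀ x, ∃ l : ℂ, l ≠ 0 ∧ a * w1 (cjb fl x) + b * w2 (cjb fl x) = l * w1 (r u x) ∧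
      c * w1 (cjb fl x) + d * w2 (cjb fl x) = l * w2 (r u x))
include h

lemma qw_pos (x : Sp) : 0 < qw a b c d fl x := by
  obtain ⟨l, hl, h1, h2⟩ := h x
  unfold qw
  rw [h1, h2, map_mul, map_mul, ← mul_add]
  exact div_pos (mul_pos (Complex.normSq_pos.2 hl) (nC_pos _)) (nC_pos x)

include hdet in
lemma qw_sg (x y : Sp) : sg (r u x) (r u y) * (qw a b c d fl x * qw a b c d fl y) = sg x y := by
  obtain ⟨l, hl, h1, h2⟩ := h x
  obtain ⟨l', hl', h3, h4⟩ := h y
  have e : l * l' * (w1 (r u x) * w2 (r u y) - w2 (r u x) * w1 (r u y)) =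
      (a * d - b * c) * (w1 (cjb fl x) * w2 (cjb fl y) - w2 (cjb fl x) * w1 (cjb fl y)) := by
    calc l * l' * (w1 (r u x) * w2 (r u y) - w2 (r u x) * w1 (r u y))
        = (l * w1 (r u x)) * (l' * w2 (r u y)) - (l * w2 (r u x)) * (l' * w1 (r u y)) := by ring
      _ = _ := by rw [← h1, ← h2, ← h3, ← h4]; ring
  have e2 := congrArg Complex.normSq e
  rw [map_mul, map_mul, map_mul, hdet, one_mul, normSq_cjb] at e2
  unfold sg
  rw [← e2]
  unfold qw
  rw [h1, h2, h3, h4, map_mul, map_mul, map_mul, map_mul, ← mul_add, ← mul_add]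
  have n1 := (nC_pos x).ne'
  have n2 := (nC_pos y).ne'
  have n3 := (nC_pos (r u x)).ne'
  have n4 := (nC_pos (r u y)).ne'
  show _ / (nC (r u x) * nC (r u y)) * ((Complex.normSq l * nC (r u x)) / nC x *
    ((Complex.normSq l' * nC (r u y)) / nC y)) = _
  field_simp

end

lemma sep_compact {K L : Set Sp} (hK : IsCompact K) (hL : IsCompact L) (hKL : Disjoint L K) :
    ∃ ρ : ℝ, 0 < ρ ∧ ∀ y ∈ L, ∀ k ∈ K, ρ ≤ sg y k := by
  by_cases hne : (L ×ˢ K).Nonempty
  · obtain ⟨⟨y0, k0⟩, ⟨hy0, hk0⟩, hmin⟩ :=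
      (hL.prod hK).exists_isMinOn hne sg_cont.continuousOn
    refine ⟨sg y0 k0, sg_pos ?_, fun y hy k hk => hmin (Set.mk_mem_prod hy hk)⟩
    rintro rfl
    exact Set.disjoint_left.1 hKL hy0 hk0
  · refine ⟨1, one_pos, fun y hy k hk => ?_⟩
    exact absurd ⟨(y, k), Set.mk_mem_prod hy hk⟩ hne

lemma rho_word : ∀ v : List (Fin 4), ∃ u, rho v = r u
  | [] => ⟨[], rfl⟩
  | [i] => ⟨[i], by simp [r, rho]⟩
  | i :: j :: t => by
    obtain ⟨u, hu⟩ := rho_word (j :: t)
    refine ⟨i :: u ++ [i], ?_⟩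
    rw [rho_cons (by simp), hu, r_append, r_cons]
    simp [r]

lemma WW_word : ∀ w ∈ WW, ∃ u, w = r u := by
  apply WW_ind
  · exact ⟨[], rfl⟩
  · rintro v hv w ⟨u, rfl⟩
    obtain ⟨u', hu'⟩ := rho_word v
    exact ⟨u' ++ u, by rw [hu', r_append]⟩

lemma union_r (u : List (Fin 4)) {y : Sp} (hy : y ∈ ⋃₀ Or) : r u y ∈ ⋃₀ Or := by
  obtain ⟨S, hS, hyS⟩ := hy
  exact ⟨_, Or_r u hS, y, hyS, rfl⟩

lemma zero_mem : ((0 : ℂ) : Sp) ∈ ⋃₀ Or := ⟨C 3, Or_C 3, zero_mem_C3⟩
lemma infty_mem' : (OnePoint.infty : Sp) ∈ ⋃₀ Or := ⟨C 3, Or_C 3, by simp [C, q]⟩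

lemma bound_of {z : Sp} {B : Set Sp} {ρ : ℝ} (hρ : 0 < ρ)
    (hB : ∀ y ∈ closure (⋃₀ Or), ∀ k ∈ B, ρ ≤ sg y k) {u : List (Fin 4)} (hu : r u z ∈ B)
    {a b c d : ℂ} {fl : Bool} (hdet : Complex.normSq (a * d - b * c) = 1)
    (h : ∀ x, ∃ l : ℂ, l ≠ 0 ∧ a * w1 (cjb fl x) + b * w2 (cjb fl x) = l * w1 (r u x) ∧
      c * w1 (cjb fl x) + d * w2 (cjb fl x) = l * w2 (r u x)) :
    z ∉ closure (⋃₀ Or) := by
  intro hz
  have hq := qw_pos h
  have hs := qw_sg hdet h
  generalize qw a b c d fl = Q at hq hs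
  -- a point of the packing different from z
  obtain ⟨y1, hy1, hne⟩ : ∃ y1 ∈ ⋃₀ Or, y1 ≠ z := by
    by_cases h0 : ((0 : ℂ) : Sp) = z
    · refine ⟨_, infty_mem', ?_⟩
      rw [← h0]
      exact OnePoint.infty_ne_coe 0
    · exact ⟨_, zero_mem, h0⟩
  have hc : ∀ y0 : Sp, Continuous (fun y : Sp => sg y y0) := fun y0 =>
    sg_cont.comp (Continuous.prodMk continuous_id continuous_const)
  have hcl : IsClosed {y : Sp | ρ * Q z / Q y1 * sg y y1 ≤ sg y z} :=
    isClosed_le (continuous_const.mul (hc y1)) (hc z)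
  have hsub : closure (⋃₀ Or) ⊆ {y : Sp | ρ * Q z / Q y1 * sg y y1 ≤ sg y z} := by
    apply closure_minimal _ hcl
    intro y hy
    have h1 := hB _ (subset_closure (union_r u hy)) _ hu
    have h2 := hs y z
    have h3 := hs y y1
    have h4 := sg_le_one (r u y) (r u y1)
    have h5 : sg y y1 ≤ Q y * Q y1 := by
      rw [← h3]
      nlinarith [mul_pos (hq y) (hq y1)]
    have h6 : ρ * (Q y * Q z) ≤ sg y z := by
      rw [← h2]
      exact mul_le_mul_of_nonneg_right h1 (mul_pos (hq y) (hq z)).le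
    show ρ * Q z / Q y1 * sg y y1 ≤ sg y z
    have h7 : ρ * Q z / Q y1 * sg y y1 ≤ ρ * Q z / Q y1 * (Q y * Q y1) := by
      apply mul_le_mul_of_nonneg_left h5
      exact div_nonneg (mul_pos hρ (hq z)).le (hq y1).le
    have h8 : ρ * Q z / Q y1 * (Q y * Q y1) = ρ * (Q y * Q z) := by
      have := (hq y1).ne'
      field_simp
    linarith
  have h9 : ρ * Q z / Q y1 * sg z y1 ≤ sg z z := hsub hz
  rw [sg_self] at h9
  have h10 : 0 < ρ * Q z / Q y1 * sg z y1 :=
    mul_pos (div_pos (mul_pos hρ (hq z)) (hq y1)) (sg_pos hne.symm)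
  linarith

lemma GI_bound {a : ℂ} (ha : isGI a) {K : ℕ} (h : Complex.normSq a ≤ K) :
    ∃ m n : ℤ, a = m + n * Complex.I ∧ m ∈ Set.Icc (-(K : ℤ)) K ∧ n ∈ Set.Icc (-(K : ℤ)) K := by
  obtain ⟨m, n, rfl⟩ := ha
  have h1 : ((m : ℝ)) ^ 2 + (n : ℝ) ^ 2 ≤ K := by
    rw [Complex.normSq_apply] at h
    simp at h
    linarith
  have h2 : m ^ 2 + n ^ 2 ≤ (K : ℤ) := by exact_mod_cast h1
  have key : ∀ t s : ℤ, t ^ 2 + s ^ 2 ≤ (K : ℤ) → t ∈ Set.Icc (-(K : ℤ)) K := by
    intro t s hts
    constructor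
    · by_contra hc
      push Not at hc
      nlinarith [sq_nonneg s, Int.natCast_nonneg K]
    · by_contra hc
      push Not at hc
      nlinarith [sq_nonneg s, Int.natCast_nonneg K]
  exact ⟨m, n, rfl, key m n h2, key n m (by linarith)⟩

/-- the points given by a matrix -/
def pts (z : Sp) (fl : Bool) (m : Fin 8 → ℤ) : Set Sp :=
  {p | ∃ l : ℂ, l ≠ 0 ∧
    (m 0 + m 1 * Complex.I) * w1 (cjb fl z) + (m 2 + m 3 * Complex.I) * w2 (cjb fl z) = l * w1 p ∧
    (m 4 + m 5 * Complex.I) * w1 (cjb fl z) + (m 6 + m 7 * Complex.I) * w2 (cjb fl z) = l * w2 p}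

lemma pts_sub (z : Sp) (fl : Bool) (m : Fin 8 → ℤ) : (pts z fl m).Subsingleton := by
  rintro p ⟨l, hl, h1, h2⟩ p' ⟨l', hl', h3, h4⟩
  rw [ext_iff]
  have e1 : l * w1 p = l' * w1 p' := by rw [← h1, ← h3]
  have e2 : l * w2 p = l' * w2 p' := by rw [← h2, ← h4]
  have : (l * l') * (w1 p * w2 p') = (l * l') * (w2 p * w1 p') := by
    linear_combination (l' * w2 p') * e1 - (l' * w1 p') * e2
  exact mul_left_cancel₀ (mul_ne_zero hl hl') this

/-- orbits accumulate only on the closure of the packing -/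
lemma sub_main (z : Sp) : derivedSet {w : Sp | ∃ g ∈ Gam, w = g • z} ⊆ closure (⋃₀ Or) := by
  intro p hp
  by_contra hpL
  have hL : IsCompact (closure (⋃₀ Or) : Set Sp) := isClosed_closure.isCompact
  obtain ⟨K, hK, hpK, hKU⟩ := exists_compact_subset (isClosed_closure.isOpen_compl) hpL
  obtain ⟨ρ, hρ, hB⟩ := sep_compact hK hL (by
    rw [Set.disjoint_left]; intro x hx hx2; exact hKU hx2 hx)
  -- the orbit points in K are finitely many
  have hfin : ({w : Sp | ∃ g ∈ Gam, w = g • z} ∩ K).Finite := by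
    by_cases hzL : z ∈ closure (⋃₀ Or)
    · convert Set.finite_empty
      ext w
      simp only [Set.mem_inter_iff, Set.mem_empty_iff_false, iff_false]
      rintro ⟨⟨g, hg, rfl⟩, hgK⟩
      obtain ⟨u, hu⟩ := WW_word _ (mem_Gam.1 hg)
      rw [← mob_apply, hu] at hgK
      obtain ⟨a, b, c, d, ha, hb, hc, hd, hdet, fl, h⟩ := word_mat u
      exact bound_of hρ hB hgK hdet h hzL
    · obtain ⟨ρ', hρ', hB'⟩ := sep_compact (K := {z}) isCompact_singleton hL (by
        rw [Set.disjoint_left]; rintro x hx rfl; exact hzL hx)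
      obtain ⟨N0, hN0⟩ := exists_nat_ge (1 / (ρ * ρ'))
      have hicc : (Set.Icc (fun _ : Fin 8 => -(N0 : ℤ)) (fun _ => (N0 : ℤ))).Finite :=
        Set.finite_Icc _ _
      refine Set.Finite.subset (Set.Finite.biUnion hicc (fun m _ =>
        ((pts_sub z false m).finite.union (pts_sub z true m).finite))) ?_
      rintro w ⟨⟨g, hg, rfl⟩, hgK⟩
      obtain ⟨u, hu⟩ := WW_word _ (mem_Gam.1 hg)
      rw [← mob_apply, hu] at hgK ⊢
      obtain ⟨a, b, c, d, ha, hb, hc, hd, hdet, fl, h⟩ := word_mat u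
      have hq := qw_pos h
      have hs := qw_sg hdet h
      have hq0 := qw_zero a b c d fl
      have hqi := qw_infty a b c d fl
      generalize qw a b c d fl = Q at hq hs hq0 hqi
      have s1 : ∀ y ∈ ⋃₀ Or, ρ * (Q y * Q z) ≤ 1 := by
        intro y hy
        have h1 := hB _ (subset_closure (union_r u hy)) _ hgK
        have h2 := hs y z
        have h3 := sg_le_one y z
        have h4 : ρ * (Q y * Q z) ≤ sg y z := by
          rw [← h2]
          exact mul_le_mul_of_nonneg_right h1 (mul_pos (hq y) (hq z)).le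
        linarith
      have s2 : ∀ y ∈ ⋃₀ Or, ρ' ≤ Q y * Q z := by
        intro y hy
        have h1 := hB' y (subset_closure hy) z rfl
        have h2 := hs y z
        have h3 := sg_le_one (r u y) (r u z)
        rw [← h2] at h1
        nlinarith [mul_pos (hq y) (hq z)]
      have s3 : ρ' ≤ Q z := by
        have hinv : ∀ y, r u (r u.reverse y) = y := by
          intro y
          have := congrArg (fun f : Equiv.Perm Sp => f y) (r_reverse u.reverse)
          simpa using this
        have k1 := s2 _ (union_r u.reverse zero_mem)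
        have k2 := s2 _ (union_r u.reverse infty_mem')
        have k3 := hs (r u.reverse ((0 : ℂ) : Sp)) (r u.reverse OnePoint.infty)
        rw [hinv, hinv, sg_zero_infty, one_mul] at k3
        have k4 := sg_le_one (r u.reverse ((0 : ℂ) : Sp)) (r u.reverse OnePoint.infty)
        rw [← k3] at k4
        have k5 := mul_le_mul k1 k2 hρ'.le (mul_pos (hq _) (hq z)).le
        have k6 : ρ' * ρ' ≤ Q z * Q z := by
          have := mul_le_mul_of_nonneg_right k4 (mul_pos (hq z) (hq z)).le
          nlinarith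
        by_contra hc
        push Not at hc
        nlinarith [hq z]
      have s4 : ∀ y ∈ ⋃₀ Or, Q y ≤ N0 := by
        intro y hy
        refine le_trans ?_ hN0
        rw [le_div_iff₀ (mul_pos hρ hρ')]
        have h1 := s1 y hy
        have h2 : Q y * ρ' ≤ Q y * Q z := mul_le_mul_of_nonneg_left s3 (hq y).le
        nlinarith
      have t0 := s4 _ zero_mem
      have ti := s4 _ infty_mem'
      rw [hq0] at t0
      rw [hqi] at ti
      obtain ⟨m0, m1, ea, b0, b1⟩ := GI_bound ha (K := N0) (by linarith [Complex.normSq_nonneg c])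
      obtain ⟨m2, m3, eb, b2, b3⟩ := GI_bound hb (K := N0) (by linarith [Complex.normSq_nonneg d])
      obtain ⟨m4, m5, ec, b4, b5⟩ := GI_bound hc (K := N0) (by linarith [Complex.normSq_nonneg a])
      obtain ⟨m6, m7, ed, b6, b7⟩ := GI_bound hd (K := N0) (by linarith [Complex.normSq_nonneg b])
      rw [Set.mem_iUnion₂]
      refine ⟨![m0, m1, m2, m3, m4, m5, m6, m7], ?_, ?_⟩
      · constructor
        · intro i
          fin_cases i
          · exact b0.1
          · exact b1.1
          · exact b2.1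
          · exact b3.1
          · exact b4.1
          · exact b5.1
          · exact b6.1
          · exact b7.1
        · intro i
          fin_cases i
          · exact b0.2
          · exact b1.2
          · exact b2.2
          · exact b3.2
          · exact b4.2
          · exact b5.2
          · exact b6.2
          · exact b7.2
      · obtain ⟨l, hl, e1, e2⟩ := h z
        rw [ea, eb] at e1
        rw [ec, ed] at e2
        have hmem : r u z ∈ pts z fl ![m0, m1, m2, m3, m4, m5, m6, m7] := ⟨l, hl, e1, e2⟩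
        cases fl
        · exact Or.inl hmem
        · exact Or.inr hmem
  rw [mem_derivedSet, accPt_iff_nhds] at hp
  have hfin2 : (({w : Sp | ∃ g ∈ Gam, w = g • z} ∩ K) \ {p}).Finite := hfin.subset Set.sdiff_subset
  obtain ⟨y, ⟨⟨hy1, hy2⟩, hy3⟩, hy4⟩ := hp (K ∩ (({w : Sp | ∃ g ∈ Gam, w = g • z} ∩ K) \ {p})ᶜ)
    (Filter.inter_mem (mem_interior_iff_mem_nhds.1 hpK)
      (hfin2.isClosed.isOpen_compl.mem_nhds (by simp)))
  exact hy2 ⟨⟨hy3, hy1⟩, hy4⟩

end Pool.Agent.N78.AP
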