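import Pool.Agent.N78.AP.Cover

/-!
# The packing is the orbit of the base circles
-/

set_option autoImplicit false

open Topology Filter ComplexConjugate

namespace Pool.Agent.N78.AP

/-- the extended real line -/
def RR : Set Sp := insert OnePoint.infty (Set.range (fun x : ℝ => OnePoint.some (x : ℂ)))

/-- images of the real line -/
def mobR (g : GL (Fin 2) ℂ) : Set Sp := (fun w : Sp => g • w) '' RR

/-- the imaginary part, in homogeneous coordinates -/
noncomputable def hm (y : Sp) : ℝ := (w1 y * conj (w2 y)).im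

@[simp] lemma hm_infty : hm OnePoint.infty = 0 := by simp [hm]
@[simp] lemma hm_coe (z : ℂ) : hm (z : Sp) = z.im := by simp [hm]

lemma mem_RR {y : Sp} : y ∈ RR ↔ hm y = 0 := by
  induction y using OnePoint.rec with
  | infty => simp [RR]
  | coe z =>
    rw [hm_coe]
    constructor
    · rintro (h | ⟨x, hx⟩)
      · exact absurd h (OnePoint.coe_ne_infty z)
      · have : (x : ℂ) = z := OnePoint.coe_injective hx
        rw [← this]; simp
    · intro h
      right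
      exact ⟨z.re, congrArg _ (Complex.ext (by simp) (by simp [h]))⟩

/-- the form of the image of the real line -/
noncomputable def Qg (g : GL (Fin 2) ℂ) : Fm :=
  ⟨-2 * (g 1 1 * conj (g 1 0)).im, (g 1 1 * conj (g 0 0) - conj (g 0 1) * g 1 0).im,
   (g 1 1 * conj (g 0 0) - conj (g 0 1) * g 1 0).re, -2 * (g 0 1 * conj (g 0 0)).im⟩

lemma vl_Qg (g : GL (Fin 2) ℂ) (u v : ℂ) :
    vl (Qg g) (g 0 0 * u + g 0 1 * v) (g 1 0 * u + g 1 1 * v) =
      2 * Complex.normSq (g 0 0 * g 1 1 - g 0 1 * g 1 0) * (u * conj v).im := by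
  simp only [vl, Qg, Complex.normSq_apply, Complex.add_re, Complex.add_im, Complex.mul_re,
    Complex.mul_im, Complex.sub_re, Complex.sub_im, Complex.conj_re, Complex.conj_im, map_add,
    map_mul]
  ring

lemma norm_Qg (g : GL (Fin 2) ℂ) :
    (Qg g).b ^ 2 + (Qg g).c ^ 2 - (Qg g).A * (Qg g).D =
      Complex.normSq (g 0 0 * g 1 1 - g 0 1 * g 1 0) := by
  simp only [Qg, Complex.normSq_apply, Complex.mul_re,
    Complex.mul_im, Complex.sub_re, Complex.sub_im, Complex.conj_re, Complex.conj_im]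
  ring

lemma ev_Qg (g : GL (Fin 2) ℂ) (y : Sp) : ∃ k : ℝ, 0 < k ∧ ev (Qg g) (g • y) = k * hm y := by
  obtain ⟨l, hl, h1, h2⟩ := smul_vec g y
  have h3 := vl_Qg g (w1 y) (w2 y)
  rw [h1, h2, vl_mul] at h3
  have hl' : 0 < Complex.normSq l := Complex.normSq_pos.2 hl
  have hd : 0 < Complex.normSq (g 0 0 * g 1 1 - g 0 1 * g 1 0) := Complex.normSq_pos.2 (GL_det g)
  refine ⟨2 * Complex.normSq (g 0 0 * g 1 1 - g 0 1 * g 1 0) / Complex.normSq l, by positivity, ?_⟩
  unfold ev hm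
  field_simp
  linarith

lemma mem_mobR {g : GL (Fin 2) ℂ} {x : Sp} : x ∈ mobR g ↔ ev (Qg g) x = 0 := by
  constructor
  · rintro ⟨y, hy, rfl⟩
    obtain ⟨k, hk, h⟩ := ev_Qg g y
    show ev (Qg g) (g • y) = 0
    rw [h, mem_RR.1 hy, mul_zero]
  · intro hx
    obtain ⟨k, hk, h⟩ := ev_Qg g (g⁻¹ • x)
    rw [smul_inv_smul, hx] at h
    refine ⟨g⁻¹ • x, mem_RR.2 ?_, smul_inv_smul g x⟩
    exact (mul_eq_zero.1 h.symm).resolve_left hk.ne'

/-- the matrices of the base circles -/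
noncomputable def mC (i : Fin 4) : Matrix (Fin 2) (Fin 2) ℂ :=
  ![!![1 - Complex.I, 1; -Complex.I, 1], !![1, 0; -Complex.I, 1], !![1, Complex.I; 0, 1],
    !![1, 0; 0, 1]] i

lemma det_mC (i : Fin 4) : (mC i).det = 1 := by
  fin_cases i <;> simp [mC, Matrix.det_fin_two]

/-- the matrices of the base circles -/
noncomputable def gC (i : Fin 4) : GL (Fin 2) ℂ :=
  Matrix.GeneralLinearGroup.mkOfDetNeZero (mC i) (by rw [det_mC]; norm_num)

lemma gC_apply (i : Fin 4) (a b : Fin 2) : gC i a b = mC i a b := rfl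

lemma C_eq (i : Fin 4) : C i = mobR (gC i) := by
  ext x
  rw [mem_mobR]
  have h : Qg (gC i) = sm (![-1, -1, -1, 1] i) (q i) := by
    fin_cases i <;> simp [Qg, gC_apply, mC, sm, q] <;> norm_num
  rw [h, ev_sm]
  have h2 : (![-1, -1, -1, 1] : Fin 4 → ℝ) i ≠ 0 := by
    fin_cases i <;> simp
  simp only [C, Set.mem_ofPred_eq, mul_eq_zero, h2, false_or]

lemma hm_cj (y : Sp) : hm (cj y) = - hm y := by
  induction y using OnePoint.rec with
  | infty => simp
  | coe z => simp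

lemma R_mobR (i : Fin 4) (g : GL (Fin 2) ℂ) :
    (R i) '' mobR g = mobR (gA i * Matrix.GeneralLinearGroup.map (starRingEnd ℂ) g) := by
  ext x
  constructor
  · rintro ⟨_, ⟨y, hy, rfl⟩, rfl⟩
    refine ⟨cj y, ?_, ?_⟩
    · rw [mem_RR, hm_cj, mem_RR.1 hy, neg_zero]
    · show (gA i * Matrix.GeneralLinearGroup.map (starRingEnd ℂ) g) • cj y = R i (g • y)
      rw [R_apply, cj_smul, ← smul_smul]
  · rintro ⟨y, hy, rfl⟩
    refine ⟨g • cj y, ⟨cj y, ?_, rfl⟩, ?_⟩
    · rw [mem_RR, hm_cj, mem_RR.1 hy, neg_zero]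
    · show R i (g • cj y) = _
      rw [R_apply, cj_smul, cj_cj, smul_smul]

lemma r_mobR (u : List (Fin 4)) (g : GL (Fin 2) ℂ) : ∃ g', (r u) '' mobR g = mobR g' := by
  induction u with
  | nil => exact ⟨g, by simp⟩
  | cons i u ih =>
    obtain ⟨g', h⟩ := ih
    rw [r_cons_image, h, R_mobR]
    exact ⟨_, rfl⟩

/-- meeting in exactly one point -/
def eu (S T : Set Sp) : Prop := ∃! p, p ∈ S ∩ T

lemma eu_image (f : Equiv.Perm Sp) (S T : Set Sp) : eu (f '' S) (f '' T) ↔ eu S T := by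
  unfold eu
  rw [← Set.image_inter f.injective]
  constructor
  · rintro ⟨_, ⟨p, hp, rfl⟩, h⟩
    exact ⟨p, hp, fun y hy => f.injective (h (f y) ⟨y, hy, rfl⟩)⟩
  · rintro ⟨p, hp, h⟩
    refine ⟨f p, ⟨p, hp, rfl⟩, ?_⟩
    rintro _ ⟨y, hy, rfl⟩
    rw [h y hy]

/-- families of circles closed under the Apollonius step -/
def ClF (F : Set (Set Sp)) : Prop :=
  ∀ S ∈ F, ∀ T ∈ F, ∀ U ∈ F, ∀ V : Set Sp, (∃ g, V = mobR g) →
    eu S T → eu T U → eu S U → S ∩ T ∩ U = ∅ → eu V S → eu V T → eu V U → V ∈ F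

lemma tp_mem {i j : Fin 4} (hij : i ≠ j) : tp i j ∈ C i := by
  fin_cases i <;> fin_cases j <;> simp_all [C, tp, q, ev_coe] <;> norm_num

lemma tp_symm {i j : Fin 4} : tp i j = tp j i := by
  fin_cases i <;> fin_cases j <;> simp [tp]

lemma eu_C {i j : Fin 4} (hij : i ≠ j) : eu (C i) (C j) :=
  ⟨tp i j, ⟨tp_mem hij, by rw [tp_symm]; exact tp_mem hij.symm⟩, fun _ hy => eq_tp hij hy.1 hy.2⟩

lemma triple {i j k : Fin 4} (hij : i ≠ j) (hik : i ≠ k) (hjk : j ≠ k) : C i ∩ C j ∩ C k = ∅ := by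
  ext x
  simp only [Set.mem_inter_iff, Set.mem_empty_iff_false, iff_false]
  rintro ⟨⟨h1, h2⟩, h3⟩
  rw [eq_tp hij h1 h2] at h3
  fin_cases i <;> fin_cases j <;> fin_cases k <;> simp_all [C, tp, q, ev_coe] <;> norm_num at h3

lemma others (i : Fin 4) : ∃ a b c : Fin 4, a ≠ b ∧ a ≠ c ∧ b ≠ c ∧ i ≠ a ∧ i ≠ b ∧ i ≠ c := by
  revert i; decide

lemma Or_sub {F : Set (Set Sp)} (hC : ∀ i, C i ∈ F) (hF : ClF F) : Or ⊆ F := by
  have key : ∀ (u : List (Fin 4)) (j : Fin 4), (r u) '' C j ∈ F := by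
    intro u
    induction u using List.reverseRecOn with
    | nil => intro j; simpa using hC j
    | append_singleton u i ih =>
      intro j
      have h1 : (r (u ++ [i])) '' C j = (r u) '' ((R i) '' C j) := by
        rw [r_append, ← Set.image_comp]; simp [r]
      rw [h1]
      by_cases hij : i = j
      · subst hij
        obtain ⟨a, b, c, hab, hac, hbc, ha, hb, hc⟩ := others i
        have hV : ∀ a, i ≠ a → eu ((r u) '' ((R i) '' C i)) ((r u) '' C a) := by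
          intro a ha
          rw [eu_image, ← R_image_C ha, eu_image]
          exact eu_C ha
        refine hF _ (ih a) _ (ih b) _ (ih c) _ ?_ ?_ ?_ ?_ ?_ (hV a ha) (hV b hb) (hV c hc)
        · rw [C_eq, R_mobR]
          exact r_mobR _ _
        · rw [eu_image]; exact eu_C hab
        · rw [eu_image]; exact eu_C hbc
        · rw [eu_image]; exact eu_C hac
        · rw [← Set.image_inter (r u).injective, ← Set.image_inter (r u).injective,
            triple hab hac hbc, Set.image_empty]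
      · rw [R_image_C hij]
        exact ih j
  rintro S ⟨u, j, rfl⟩
  exact key u j

/-! ### Reduction of a triple of tangent circles -/

/-- rank -/
def rk (m : ℕ) (S : Set Sp) : Prop :=
  ∃ (u : List (Fin 4)) (j : Fin 4), u.length ≤ m ∧ S = (r u) '' C j

lemma rk_C (m : ℕ) (k : Fin 4) : rk m (C k) := ⟨[], k, by simp, by simp⟩

lemma rk.mono {m n : ℕ} (h : m ≤ n) {S : Set Sp} (hS : rk m S) : rk n S := by
  obtain ⟨u, j, h1, h2⟩ := hS
  exact ⟨u, j, h1.trans h, h2⟩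

lemma rk_st {m : ℕ} {S : Set Sp} (hS : rk m S) :
    (∃ k, S = C k) ∨ ∃ i, S ⊆ I i ∧ ∃ m', m' < m ∧ rk m' ((R i) '' S) := by
  obtain ⟨u, j, h1, rfl⟩ := hS
  rcases circ_st _ u j rfl with h | ⟨i, hi, u', j', hl, h⟩
  · left; exact h
  · right
    exact ⟨i, hi, u'.length, by omega, u', j', le_refl _, h⟩

lemma rk_meet {m : ℕ} {S T : Set Sp} {i : Fin 4} (hS : S ⊆ I i) (hT : rk m T)
    (h : (S ∩ T).Nonempty) : rk m ((R i) '' T) := by
  obtain ⟨x, hx1, hx2⟩ := h
  rcases rk_st hT with ⟨k, rfl⟩ | ⟨j, hj, m', hm', h'⟩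
  · have hik : i ≠ k := by
      rintro rfl
      exact C_E_disj hx2 (I_subset_E i (hS hx1))
    rw [R_image_C hik]
    exact rk_C m k
  · have hij : i = j := by
      by_contra hij
      exact E_I_disj hij (I_subset_E i (hS hx1)) (hj hx2)
    subst hij
    exact h'.mono hm'.le

lemma inter_R {i : Fin 4} {S T : Set Sp} (h : (S ∩ T).Nonempty) :
    ((R i) '' S ∩ (R i) '' T).Nonempty := by
  rw [← Set.image_inter (R i).injective]
  exact h.image _

lemma reduce : ∀ (n m1 m2 m3 : ℕ) (S T U : Set Sp), m1 + m2 + m3 = n → rk m1 S → rk m2 T →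
    rk m3 U → (S ∩ T).Nonempty → (T ∩ U).Nonempty → (S ∩ U).Nonempty →
    ∃ (x : List (Fin 4)) (a b c : Fin 4), (r x) '' S = C a ∧ (r x) '' T = C b ∧
      (r x) '' U = C c := by
  intro n
  induction n using Nat.strong_induction_on with
  | _ n ih =>
  intro m1 m2 m3 S T U hn hS hT hU h12 h23 h13
  have fin : ∀ (i : Fin 4) (n' m1' m2' m3' : ℕ), n' < n → m1' + m2' + m3' = n' →
      rk m1' ((R i) '' S) → rk m2' ((R i) '' T) → rk m3' ((R i) '' U) →
      ∃ (x : List (Fin 4)) (a b c : Fin 4), (r x) '' S = C a ∧ (r x) '' T = C b ∧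
      (r x) '' U = C c := by
    intro i n' m1' m2' m3' hn' hsum k1 k2 k3
    obtain ⟨x, a, b, c, ha, hb, hc⟩ := ih n' hn' m1' m2' m3' _ _ _ hsum k1 k2 k3 (inter_R h12)
      (inter_R h23) (inter_R h13)
    have hx : ∀ W : Set Sp, (r (x ++ [i])) '' W = (r x) '' ((R i) '' W) := by
      intro W
      rw [r_append, ← Set.image_comp]; simp [r]
    exact ⟨x ++ [i], a, b, c, by rw [hx, ha], by rw [hx, hb], by rw [hx, hc]⟩
  rcases rk_st hS with ⟨a, rfl⟩ | ⟨i, hi, m', hm', h'⟩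
  · rcases rk_st hT with ⟨b, rfl⟩ | ⟨i, hi, m', hm', h'⟩
    · rcases rk_st hU with ⟨c, rfl⟩ | ⟨i, hi, m', hm', h'⟩
      · exact ⟨[], a, b, c, by simp, by simp, by simp⟩
      · have k1 := rk_meet hi hS (by rwa [Set.inter_comm])
        have k2 := rk_meet hi hT (by rwa [Set.inter_comm])
        exact fin i _ m1 m2 m' (by omega) rfl k1 k2 h'
    · have k1 := rk_meet hi hS (by rwa [Set.inter_comm])
      have k3 := rk_meet hi hU h23
      exact fin i _ m1 m' m3 (by omega) rfl k1 h' k3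
  · have k2 := rk_meet hi hT h12
    have k3 := rk_meet hi hU h13
    exact fin i _ m' m2 m3 (by omega) rfl h' k2 k3

/-! ### Tangency -/

lemma unique_RR (P : Fm) (h : ∃! t, t ∈ RR ∧ ev P t = 0) : P.b ^ 2 = P.A * P.D := by
  obtain ⟨p, ⟨hp1, hp2⟩, hu⟩ := h
  have real_mem : ∀ x : ℝ, ((x : ℂ) : Sp) ∈ RR := fun x => mem_RR.2 (by simp)
  have ev_real : ∀ x : ℝ, ev P ((x : ℂ) : Sp) = P.A * x ^ 2 + 2 * P.b * x + P.D := by
    intro x; rw [ev_coe]; simp; ring
  rcases hp1 with rfl | ⟨x, rfl⟩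
  · rw [ev_infty] at hp2
    by_cases hb : P.b = 0
    · rw [hb, hp2]; ring
    · exfalso
      have := hu (((-P.D / (2 * P.b) : ℝ) : ℂ) : Sp) ⟨real_mem _, by
        rw [ev_real, hp2]; field_simp; ring⟩
      exact OnePoint.coe_ne_infty _ this
  · have hp2' : P.A * x ^ 2 + 2 * P.b * x + P.D = 0 := by rw [← ev_real]; exact hp2
    by_cases hA : P.A = 0
    · exfalso
      have := hu OnePoint.infty ⟨mem_RR.2 (by simp), by rw [ev_infty, hA]⟩
      exact OnePoint.coe_ne_infty _ this.symm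
    · have h1 := hu (((-2 * P.b / P.A - x : ℝ) : ℂ) : Sp) ⟨real_mem _, by
        rw [ev_real]; field_simp; linear_combination P.A * hp2'⟩
      have h2 : -2 * P.b / P.A - x = x := by
        have := OnePoint.coe_injective h1
        exact_mod_cast this
      have h3 : P.b = - P.A * x := by
        field_simp at h2
        linarith
      rw [h3] at hp2' ⊢
      linear_combination (-P.A) * hp2'

/-- pulled back forms -/
noncomputable def pull (g : GL (Fin 2) ℂ) (Q : Fm) : Fm :=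
  let β : ℂ := Q.A * (g 0 0 * conj (g 0 1)) + ⟨Q.b, -Q.c⟩ * (g 0 0 * conj (g 1 1)) +
    ⟨Q.b, Q.c⟩ * (conj (g 0 1) * g 1 0) + Q.D * (g 1 0 * conj (g 1 1))
  ⟨vl Q (g 0 0) (g 1 0), β.re, - β.im, vl Q (g 0 1) (g 1 1)⟩

lemma vl_pull (g : GL (Fin 2) ℂ) (Q : Fm) (u v : ℂ) :
    vl Q (g 0 0 * u + g 0 1 * v) (g 1 0 * u + g 1 1 * v) = vl (pull g Q) u v := by
  simp only [vl, pull, Complex.normSq_apply, Complex.add_re, Complex.add_im, Complex.mul_re,
    Complex.mul_im, Complex.conj_re, Complex.conj_im, map_add,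
    map_mul, Complex.ofReal_re, Complex.ofReal_im]
  ring

lemma ev_pull (g : GL (Fin 2) ℂ) (Q : Fm) (t : Sp) :
    ∃ k : ℝ, 0 < k ∧ ev (pull g Q) t = k * ev Q (g • t) := by
  obtain ⟨l, hl, h1, h2⟩ := smul_vec g t
  refine ⟨Complex.normSq l, Complex.normSq_pos.2 hl, ?_⟩
  unfold ev
  rw [← vl_pull, h1, h2, vl_mul]

/-- zero sets of forms -/
def Z (Q : Fm) : Set Sp := {x | ev Q x = 0}

lemma mem_Z {Q : Fm} {x : Sp} : x ∈ Z Q ↔ ev Q x = 0 := Iff.rfl

lemma tangent (Q : Fm) (j : Fin 4) (h : eu (Z Q) (C j)) :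
    ip Q (q j) ^ 2 = 4 * (Q.b ^ 2 + Q.c ^ 2 - Q.A * Q.D) := by
  have h1 : ∃! t, t ∈ RR ∧ ev (pull (gC j) Q) t = 0 := by
    obtain ⟨p, ⟨hp1, hp2⟩, hu⟩ := h
    rw [C_eq] at hp2
    obtain ⟨t, ht, rfl⟩ := hp2
    refine ⟨t, ⟨ht, ?_⟩, ?_⟩
    · obtain ⟨k, hk, h⟩ := ev_pull (gC j) Q t
      rw [h, mem_Z.1 hp1, mul_zero]
    · rintro s ⟨hs1, hs2⟩
      obtain ⟨k, hk, h⟩ := ev_pull (gC j) Q s
      rw [h] at hs2
      have h3 := (mul_eq_zero.1 hs2).resolve_left hk.ne'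
      have h4 := hu (gC j • s) ⟨h3, by rw [C_eq]; exact ⟨s, hs1, rfl⟩⟩
      exact (MulAction.injective (gC j)) h4
  have h2 := unique_RR _ h1
  fin_cases j <;> simp [pull, gC_apply, mC, vl, ip, q, Complex.normSq_apply] at h2 ⊢ <;>
    linear_combination (-4) * h2

lemma Descartes (Q : Fm) : 2 * (ip Q (q 0) ^ 2 + ip Q (q 1) ^ 2 + ip Q (q 2) ^ 2 + ip Q (q 3) ^ 2) -
    (ip Q (q 0) + ip Q (q 1) + ip Q (q 2) + ip Q (q 3)) ^ 2 =
      16 * (Q.b ^ 2 + Q.c ^ 2 - Q.A * Q.D) := by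
  simp [ip, q]; ring

lemma desc_cases (κ x y z t : ℝ) (hx : x = κ ∨ x = -κ) (hy : y = κ ∨ y = -κ)
    (hz : z = κ ∨ z = -κ)
    (h : 2 * (x ^ 2 + y ^ 2 + z ^ 2 + t ^ 2) - (x + y + z + t) ^ 2 = 4 * κ ^ 2) :
    ∃ s : ℝ, (s = κ ∨ s = -κ) ∧ ((x = -s ∧ y = -s ∧ z = -s ∧ (t = s ∨ t = -7 * s)) ∨
      (t = -s ∧ ((x = s ∧ y = -s ∧ z = -s) ∨ (x = -s ∧ y = s ∧ z = -s) ∨
        (x = -s ∧ y = -s ∧ z = s)))) := by
  rcases hx with rfl | rfl
  · rcases hy with rfl | rfl
    · rcases hz with rfl | rfl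
      · refine ⟨-z, Or.inr rfl, Or.inl ⟨by ring, by ring, by ring, ?_⟩⟩
        have h1 : (t + z) * (t - 7 * z) = 0 := by linear_combination h
        rcases mul_eq_zero.1 h1 with h2 | h2
        · left; linarith
        · right; linarith
      · refine ⟨-y, Or.inr rfl, Or.inr ⟨?_, Or.inr (Or.inr ⟨by ring, by ring, by ring⟩)⟩⟩
        have h1 : (t - y) ^ 2 = 0 := by linear_combination h
        have h2 := pow_eq_zero_iff (two_ne_zero) |>.1 h1
        linarith
    · rcases hz with rfl | rfl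
      · refine ⟨-z, Or.inr rfl, Or.inr ⟨?_, Or.inr (Or.inl ⟨by ring, by ring, by ring⟩)⟩⟩
        have h1 : (t - z) ^ 2 = 0 := by linear_combination h
        have h2 := pow_eq_zero_iff (two_ne_zero) |>.1 h1
        linarith
      · refine ⟨x, Or.inl rfl, Or.inr ⟨?_, Or.inl ⟨by ring, by ring, by ring⟩⟩⟩
        have h1 : (t + x) ^ 2 = 0 := by linear_combination h
        have h2 := pow_eq_zero_iff (two_ne_zero) |>.1 h1
        linarith
  · rcases hy with rfl | rfl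
    · rcases hz with rfl | rfl
      · refine ⟨-z, Or.inr rfl, Or.inr ⟨?_, Or.inl ⟨by ring, by ring, by ring⟩⟩⟩
        have h1 : (t - z) ^ 2 = 0 := by linear_combination h
        have h2 := pow_eq_zero_iff (two_ne_zero) |>.1 h1
        linarith
      · refine ⟨y, Or.inl rfl, Or.inr ⟨?_, Or.inr (Or.inl ⟨by ring, by ring, by ring⟩)⟩⟩
        have h1 : (t + y) ^ 2 = 0 := by linear_combination h
        have h2 := pow_eq_zero_iff (two_ne_zero) |>.1 h1
        linarith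
    · rcases hz with rfl | rfl
      · refine ⟨z, Or.inl rfl, Or.inr ⟨?_, Or.inr (Or.inr ⟨by ring, by ring, by ring⟩)⟩⟩
        have h1 : (t + z) ^ 2 = 0 := by linear_combination h
        have h2 := pow_eq_zero_iff (two_ne_zero) |>.1 h1
        linarith
      · refine ⟨κ, Or.inl rfl, Or.inl ⟨by ring, by ring, by ring, ?_⟩⟩
        have h1 : (t - κ) * (t + 7 * κ) = 0 := by linear_combination h
        rcases mul_eq_zero.1 h1 with h2 | h2
        · left; linarith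
        · right; linarith

lemma form_eq (P Q : Fm) (s : ℝ) (h : ∀ j, ip P (q j) = s * ip Q (q j)) : P = sm s Q := by
  have h0 := h 0
  have h1 := h 1
  have h2 := h 2
  have h3 := h 3
  simp [ip, q] at h0 h1 h2 h3
  ext <;> simp only [sm] <;> linarith

lemma ip_q (k j : Fin 4) : ip (q k) (q j) = if j = k then 2 else -2 := by
  fin_cases k <;> fin_cases j <;> simp [ip, q] <;> norm_num

lemma ip_rq (k j : Fin 4) : ip (rf k (q k)) (q j) = if j = k then -14 else -2 := by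
  fin_cases k <;> fin_cases j <;> simp [ip, q, rf, add, sm, e] <;> norm_num

lemma Z_sm {s : ℝ} (hs : s ≠ 0) (Q : Fm) : Z (sm s Q) = Z Q := by
  ext x
  rw [mem_Z, mem_Z, ev_sm, mul_eq_zero]
  exact ⟨fun h => h.resolve_left hs, Or.inr⟩

lemma R_Z (i : Fin 4) (Q : Fm) : (R i) '' Z Q = Z (rf i Q) := by
  ext x
  rw [mem_R_image, mem_Z, mem_Z]
  obtain ⟨k, hk, h⟩ := ev_R i x
  rw [h, mul_eq_zero]
  exact ⟨Or.inr, fun h => h.resolve_left hk.ne'⟩

lemma Or_of_q {Q : Fm} {s : ℝ} (hs : s ≠ 0) (k : Fin 4)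
    (h : ∀ j, ip Q (q j) = if j = k then 2 * s else -2 * s) : Z Q ∈ Or := by
  rw [form_eq Q (q k) s (fun j => by rw [h, ip_q]; split_ifs <;> ring), Z_sm hs]
  exact Or_C k

lemma Or_of_rq {Q : Fm} {s : ℝ} (hs : s ≠ 0) (k : Fin 4)
    (h : ∀ j, ip Q (q j) = if j = k then -14 * s else -2 * s) : Z Q ∈ Or := by
  rw [form_eq Q (rf k (q k)) s (fun j => by rw [h, ip_rq]; split_ifs <;> ring), Z_sm hs, ← R_Z]
  exact Or_R k (Or_C k)

lemma fourth {a b c : Fin 4} (hab : a ≠ b) (hac : a ≠ c) (hbc : b ≠ c) :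
    ∃ m, m ≠ a ∧ m ≠ b ∧ m ≠ c ∧ (∀ f : Fin 4 → ℝ, f 0 + f 1 + f 2 + f 3 = f a + f b + f c + f m) ∧
      ∀ j, j = a ∨ j = b ∨ j = c ∨ j = m := by
  have : ∃ m, m ≠ a ∧ m ≠ b ∧ m ≠ c ∧ ∀ j, j = a ∨ j = b ∨ j = c ∨ j = m := by
    revert a b c; decide
  obtain ⟨m, h1, h2, h3, h4⟩ := this
  refine ⟨m, h1, h2, h3, ?_, h4⟩
  intro f
  have h5 : (Finset.univ : Finset (Fin 4)) = {a, b, c, m} := by
    ext j; simp [h4 j]
  have h6 : ∑ j, f j = f a + (f b + (f c + f m)) := by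
    rw [h5, Finset.sum_insert (by simp [hab, hac, h1.symm]),
      Finset.sum_insert (by simp [hbc, h2.symm]), Finset.sum_insert (by simp [h3.symm]),
      Finset.sum_singleton]
  rw [Fin.sum_univ_four] at h6
  linarith

lemma apollonius {V : Set Sp} (hV : ∃ g, V = mobR g) {a b c : Fin 4} (hab : a ≠ b) (hac : a ≠ c)
    (hbc : b ≠ c) (ha : eu V (C a)) (hb : eu V (C b)) (hc : eu V (C c)) : V ∈ Or := by
  obtain ⟨g, rfl⟩ := hV
  have hZ : mobR g = Z (Qg g) := by
    ext x; rw [mem_mobR, mem_Z]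
  rw [hZ] at ha hb hc ⊢
  obtain ⟨κ, hκ, hκ2⟩ : ∃ κ : ℝ, 0 < κ ∧
      (Qg g).b ^ 2 + (Qg g).c ^ 2 - (Qg g).A * (Qg g).D = κ ^ 2 := by
    refine ⟨‖g 0 0 * g 1 1 - g 0 1 * g 1 0‖, norm_pos_iff.2 (GL_det g), ?_⟩
    rw [norm_Qg, Complex.normSq_eq_norm_sq]
  generalize Qg g = Q at *
  have ta := tangent Q a ha
  have tb := tangent Q b hb
  have tc := tangent Q c hc
  rw [hκ2] at ta tb tc
  obtain ⟨m, hma, hmb, hmc, hsum, hall⟩ := fourth hab hac hbc
  have hD := Descartes Q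
  have s1 := hsum (fun j => ip Q (q j))
  have s2 := hsum (fun j => ip Q (q j) ^ 2)
  rw [s1, s2, hκ2] at hD
  have sq : ∀ t : ℝ, t ^ 2 = 4 * κ ^ 2 → t / 2 = κ ∨ t / 2 = -κ := by
    intro t ht
    apply sq_eq_sq_iff_eq_or_eq_neg.1
    linarith
  obtain ⟨s, hs, hcase⟩ := desc_cases κ (ip Q (q a) / 2) (ip Q (q b) / 2) (ip Q (q c) / 2)
    (ip Q (q m) / 2) (sq _ ta) (sq _ tb) (sq _ tc) (by linear_combination hD / 4)
  have hs0 : s ≠ 0 := by
    rcases hs with rfl | rfl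
    · exact hκ.ne'
    · exact neg_ne_zero.2 hκ.ne'
  rcases hcase with ⟨h1, h2, h3, h4 | h4⟩ | ⟨h4, ⟨h1, h2, h3⟩ | ⟨h1, h2, h3⟩ | ⟨h1, h2, h3⟩⟩
  · refine Or_of_q hs0 m ?_
    intro j
    rcases hall j with rfl | rfl | rfl | rfl
    · rw [if_neg hma.symm]; linarith
    · rw [if_neg hmb.symm]; linarith
    · rw [if_neg hmc.symm]; linarith
    · rw [if_pos rfl]; linarith
  · refine Or_of_rq hs0 m ?_
    intro j
    rcases hall j with rfl | rfl | rfl | rfl
    · rw [if_neg hma.symm]; linarith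
    · rw [if_neg hmb.symm]; linarith
    · rw [if_neg hmc.symm]; linarith
    · rw [if_pos rfl]; linarith
  · refine Or_of_q hs0 a ?_
    intro j
    rcases hall j with rfl | rfl | rfl | rfl
    · rw [if_pos rfl]; linarith
    · rw [if_neg hab.symm]; linarith
    · rw [if_neg hac.symm]; linarith
    · rw [if_neg hma]; linarith
  · refine Or_of_q hs0 b ?_
    intro j
    rcases hall j with rfl | rfl | rfl | rfl
    · rw [if_neg hab]; linarith
    · rw [if_pos rfl]; linarith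
    · rw [if_neg hbc.symm]; linarith
    · rw [if_neg hmb]; linarith
  · refine Or_of_q hs0 c ?_
    intro j
    rcases hall j with rfl | rfl | rfl | rfl
    · rw [if_neg hac]; linarith
    · rw [if_neg hbc]; linarith
    · rw [if_pos rfl]; linarith
    · rw [if_neg hmc]; linarith

lemma two_points (a : Fin 4) : ¬ eu (C a) (C a) := by
  obtain ⟨i, j, k, hij, _, _, hi, hj, _⟩ := others a
  rintro ⟨p, _, h⟩
  have h1 := h (tp a i) ⟨tp_mem hi, tp_mem hi⟩
  have h2 := h (tp a j) ⟨tp_mem hj, tp_mem hj⟩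
  have h3 : tp a i ∈ C j := by
    rw [h1, ← h2, tp_symm]; exact tp_mem hj.symm
  have h4 : tp a i ∈ C i := by
    rw [tp_symm]; exact tp_mem hi.symm
  have h5 := triple hi hj hij
  have h6 : tp a i ∈ C a ∩ C i ∩ C j := ⟨⟨tp_mem hi, h4⟩, h3⟩
  rw [h5] at h6
  exact h6

lemma r_reverse (x : List (Fin 4)) : r x.reverse * r x = 1 := by
  induction x with
  | nil => rfl
  | cons i x ih =>
    have h : r [i] = R i := by simp [r]
    rw [List.reverse_cons, r_append, h, r_cons]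
    calc r x.reverse * R i * (R i * r x) = r x.reverse * (R i * R i) * r x := by group
      _ = 1 := by rw [R_mul_self, mul_one, ih]

lemma Or_closed : ClF Or := by
  rintro S ⟨u1, j1, hS⟩ T ⟨u2, j2, hT⟩ U ⟨u3, j3, hU⟩ V hV h12 h23 h13 _ v1 v2 v3
  obtain ⟨x, a, b, c, ha, hb, hc⟩ := reduce _ u1.length u2.length u3.length S T U rfl
    ⟨u1, j1, le_refl _, hS⟩ ⟨u2, j2, le_refl _, hT⟩ ⟨u3, j3, le_refl _, hU⟩ h12.exists h23.exists
    h13.exists
  have hab : a ≠ b := by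
    rintro rfl
    rw [← eu_image (r x), ha, hb] at h12
    exact two_points a h12
  have hbc : b ≠ c := by
    rintro rfl
    rw [← eu_image (r x), hb, hc] at h23
    exact two_points b h23
  have hac : a ≠ c := by
    rintro rfl
    rw [← eu_image (r x), ha, hc] at h13
    exact two_points a h13
  rw [← eu_image (r x), ha] at v1
  rw [← eu_image (r x), hb] at v2
  rw [← eu_image (r x), hc] at v3
  obtain ⟨g, rfl⟩ := hV
  have h := apollonius (r_mobR x g) hab hac hbc v1 v2 v3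
  have h2 := Or_r x.reverse h
  rw [← Set.image_comp] at h2
  have h3 : (r x.reverse ∘ r x : Sp → Sp) = id := by
    funext y
    have := congrArg (fun f : Equiv.Perm Sp => f y) (r_reverse x)
    simpa using this
  rwa [h3, Set.image_id] at h2

/-- the packing is the orbit of the base circles -/
lemma packing_eq : ⋂₀ {F : Set (Set Sp) | C 0 ∈ F ∧ C 1 ∈ F ∧ C 2 ∈ F ∧ C 3 ∈ F ∧ ClF F} = Or := by
  apply le_antisymm
  · intro S hS
    exact hS Or ⟨Or_C 0, Or_C 1, Or_C 2, Or_C 3, Or_closed⟩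
  · intro S hS F hF
    refine Or_sub ?_ hF.2.2.2.2 hS
    intro i
    fin_cases i
    · exact hF.1
    · exact hF.2.1
    · exact hF.2.2.1
    · exact hF.2.2.2.1

end Pool.Agent.N78.AP
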