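import Pool.Agent.N78.AP.Shrink
import Pool.Agent.N78.AP.Packing

/-!
# The group generated by the reflections in a family of nodes
-/

set_option autoImplicit false

open Topology Filter ComplexConjugate

namespace Pool.Agent.N78.AP

/-- the multiplier -/
noncomputable def lam : ℝ := 17 + 12 * √2

/-- the forms of the special circles -/
noncomputable def hf (ε s : ℝ) : Fm := ⟨1, -ε * √2, -s, 2⟩

/-- the special family of circles -/
def fam : Set (Set Sp) := {S | ∃ (ε : ℝ) (n : ℤ), (ε = 1 ∨ ε = -1) ∧ S = Z (hf ε (lam ^ n))}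

lemma sq2 : √2 * √2 = (2 : ℝ) := Real.mul_self_sqrt (by norm_num)

lemma lam_pos : 0 < lam := by unfold lam; positivity

lemma lam_inv : lam⁻¹ = 17 - 12 * √2 := by
  rw [inv_eq_iff_eq_inv, eq_comm, inv_eq_of_mul_eq_one_right]
  unfold lam
  linear_combination (-144) * sq2

lemma one_lt_lam : 1 < lam := by
  unfold lam
  have : 0 ≤ √(2 : ℝ) := by positivity
  linarith

/-- the good open set -/
def GG : Set Sp := {x | 0 < hm x ∧ ∀ S ∈ fam, x ∉ S}

lemma ev_hf (ε s : ℝ) (hε : ε = 1 ∨ ε = -1) (z : ℂ) :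
    ev (hf ε s) (z : Sp) = (z.re - ε * √2) ^ 2 + z.im ^ 2 - 2 * s * z.im := by
  have h : ε * ε = 1 := by rcases hε with rfl | rfl <;> norm_num
  rw [ev_coe, hf]
  linear_combination (-2) * h - (ε * ε) * sq2

lemma hf_infty (ε s : ℝ) : (OnePoint.infty : Sp) ∉ Z (hf ε s) := by
  rw [mem_Z, ev_infty]; simp [hf]

lemma hf_nonneg {ε s : ℝ} (hε : ε = 1 ∨ ε = -1) (hs : 0 < s) {x : Sp} (hx : x ∈ Z (hf ε s)) :
    0 ≤ hm x := by
  induction x using OnePoint.rec with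
  | infty => simp
  | coe z =>
    rw [mem_Z, ev_hf ε s hε] at hx
    rw [hm_coe]
    by_contra h
    push Not at h
    nlinarith [sq_nonneg (z.re - ε * √2), mul_pos hs (neg_pos.2 h), sq_nonneg z.im]

/-! ### openness -/

lemma GG_open {x : Sp} (hx : x ∈ GG) : GG ∈ 𝓝 x := by
  induction x using OnePoint.rec with
  | infty =>
    have := hx.1
    simp at this
  | coe z =>
    rw [OnePoint.nhds_coe_eq, Filter.mem_map]
    obtain ⟨h1, h2⟩ := hx
    rw [hm_coe] at h1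
    have hlog : 0 < Real.log lam := Real.log_pos one_lt_lam
    -- the key function
    have key : ∀ ε : ℝ, (ε = 1 ∨ ε = -1) → ∀ᶠ y : ℂ in 𝓝 z, ∀ n : ℤ,
        ev (hf ε (lam ^ n)) (y : Sp) ≠ 0 := by
      intro ε hε
      have hpos : ∀ y : ℂ, 0 < y.im → 0 < ((y.re - ε * √2) ^ 2 + y.im ^ 2) / (2 * y.im) := by
        intro y hy
        positivity
      have hcont : ContinuousAt (fun y : ℂ =>
          Real.log (((y.re - ε * √2) ^ 2 + y.im ^ 2) / (2 * y.im)) / Real.log lam) z := by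
        apply ContinuousAt.div_const
        apply ContinuousAt.log
        · apply ContinuousAt.div
          · fun_prop
          · fun_prop
          · positivity
        · exact (hpos z h1).ne'
      have hval : ∀ y : ℂ, 0 < y.im → ∀ n : ℤ, ev (hf ε (lam ^ n)) (y : Sp) = 0 →
          Real.log (((y.re - ε * √2) ^ 2 + y.im ^ 2) / (2 * y.im)) / Real.log lam = n := by
        intro y hy n hn
        rw [ev_hf ε _ hε] at hn
        have h3 : ((y.re - ε * √2) ^ 2 + y.im ^ 2) / (2 * y.im) = lam ^ n := by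
          rw [div_eq_iff (by positivity)]
          linarith
        rw [h3, Real.log_zpow]
        field_simp
      have hclosed : IsClosed (Set.range ((↑) : ℤ → ℝ)) :=
        Int.isClosedEmbedding_coe_real.isClosed_range
      have hz : Real.log (((z.re - ε * √2) ^ 2 + z.im ^ 2) / (2 * z.im)) / Real.log lam ∉
          Set.range ((↑) : ℤ → ℝ) := by
        rintro ⟨n, hn⟩
        apply h2 _ ⟨ε, n, hε, rfl⟩
        rw [mem_Z, ev_hf ε _ hε]
        have h3 : Real.log (((z.re - ε * √2) ^ 2 + z.im ^ 2) / (2 * z.im)) =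
            Real.log (lam ^ n) := by
          rw [Real.log_zpow]
          rw [eq_div_iff hlog.ne'] at hn
          linarith
        have h4 := Real.log_injOn_pos (hpos z h1) (zpow_pos lam_pos n) h3
        rw [div_eq_iff (by positivity)] at h4
        linarith
      have hev := hcont.eventually (hclosed.isOpen_compl.mem_nhds hz)
      have him : ∀ᶠ y : ℂ in 𝓝 z, 0 < y.im :=
        Complex.continuous_im.continuousAt.eventually (lt_mem_nhds h1)
      filter_upwards [hev, him] with y hy hy2 n hn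
      exact hy ⟨n, (hval y hy2 n hn).symm⟩
    have him : ∀ᶠ y : ℂ in 𝓝 z, 0 < y.im :=
      Complex.continuous_im.continuousAt.eventually (lt_mem_nhds h1)
    filter_upwards [key 1 (Or.inl rfl), key (-1) (Or.inr rfl), him] with y k1 k2 k3
    refine ⟨by rw [hm_coe]; exact k3, ?_⟩
    rintro S ⟨ε, n, hε, rfl⟩ hS
    rcases hε with rfl | rfl
    · exact k1 n hS
    · exact k2 n hS

/-! ### rational points -/

/-- Gaussian rationals -/
def isQ (z : ℂ) : Prop := (∃ a : ℚ, z.re = a) ∧ ∃ b : ℚ, z.im = b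

lemma isQ.add {z w : ℂ} (hz : isQ z) (hw : isQ w) : isQ (z + w) := by
  obtain ⟨⟨a, ha⟩, b, hb⟩ := hz
  obtain ⟨⟨c, hc⟩, d, hd⟩ := hw
  exact ⟨⟨a + c, by rw [Complex.add_re, ha, hc]; push_cast; ring⟩,
    b + d, by rw [Complex.add_im, hb, hd]; push_cast; ring⟩

lemma isQ.mul {z w : ℂ} (hz : isQ z) (hw : isQ w) : isQ (z * w) := by
  obtain ⟨⟨a, ha⟩, b, hb⟩ := hz
  obtain ⟨⟨c, hc⟩, d, hd⟩ := hw
  exact ⟨⟨a * c - b * d, by rw [Complex.mul_re, ha, hc, hb, hd]; push_cast; ring⟩,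
    a * d + b * c, by rw [Complex.mul_im, ha, hc, hb, hd]; push_cast; ring⟩

lemma isQ.inv {z : ℂ} (hz : isQ z) : isQ z⁻¹ := by
  obtain ⟨⟨a, ha⟩, b, hb⟩ := hz
  exact ⟨⟨a / (a * a + b * b), by
    rw [Complex.inv_re, Complex.normSq_apply, ha, hb]; push_cast; ring⟩,
    -b / (a * a + b * b), by
    rw [Complex.inv_im, Complex.normSq_apply, ha, hb]; push_cast; ring⟩

lemma isQ.cj {z : ℂ} (hz : isQ z) : isQ (conj z) := by
  obtain ⟨⟨a, ha⟩, b, hb⟩ := hz
  exact ⟨⟨a, by rw [Complex.conj_re, ha]⟩, -b, by rw [Complex.conj_im, hb]; push_cast; ring⟩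

/-- rational points of the sphere -/
def Rt (x : Sp) : Prop := ∀ z : ℂ, x = (z : Sp) → isQ z

lemma Rt_smul (g : GL (Fin 2) ℂ) (hg : ∀ a b, isQ (g a b)) {x : Sp} (hx : Rt x) : Rt (g • x) := by
  intro w hw
  induction x using OnePoint.rec with
  | infty =>
    rw [OnePoint.smul_infty_eq_ite] at hw
    split_ifs at hw with h
    · exact absurd hw.symm (OnePoint.coe_ne_infty w)
    rw [← OnePoint.coe_injective hw, div_eq_mul_inv]
    exact (hg 0 0).mul (hg 1 0).inv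
  | coe z =>
    have hz := hx z rfl
    rw [OnePoint.smul_some_eq_ite] at hw
    split_ifs at hw with h
    · exact absurd hw.symm (OnePoint.coe_ne_infty w)
    rw [← OnePoint.coe_injective hw, div_eq_mul_inv]
    exact (((hg 0 0).mul hz).add (hg 0 1)).mul (((hg 1 0).mul hz).add (hg 1 1)).inv

lemma isQ_gA (i : Fin 4) (a b : Fin 2) : isQ (gA i a b) := by
  rw [gA_apply]
  have h0 : isQ 0 := ⟨⟨0, by simp⟩, 0, by simp⟩
  have h1 : isQ 1 := ⟨⟨1, by simp⟩, 0, by simp⟩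
  have h2 : isQ (-1) := ⟨⟨-1, by simp⟩, 0, by simp⟩
  have h3 : isQ 2 := ⟨⟨2, by simp⟩, 0, by simp⟩
  have h4 : isQ (-2) := ⟨⟨-2, by simp⟩, 0, by simp⟩
  have h5 : isQ (1 + 2 * Complex.I) := ⟨⟨1, by simp⟩, 2, by simp⟩
  have h6 : isQ (-1 + 2 * Complex.I) := ⟨⟨-1, by simp⟩, 2, by simp⟩
  fin_cases i <;> fin_cases a <;> fin_cases b <;> simp [mA] <;> assumption

lemma Rt_R (i : Fin 4) {x : Sp} (hx : Rt x) : Rt (R i x) := by
  rw [R_apply]
  apply Rt_smul _ (isQ_gA i)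
  intro z hz
  have h : x = ((conj z : ℂ) : Sp) := by
    rw [← cj_coe, ← hz, cj_cj]
  have := (hx _ h).cj
  rwa [Complex.conj_conj] at this

lemma Rt_r (u : List (Fin 4)) {x : Sp} (hx : Rt x) : Rt (r u x) := by
  induction u with
  | nil => simpa using hx
  | cons i u ih => rw [r_cons]; exact Rt_R i ih

lemma Rt_tp (i j : Fin 4) : Rt (tp i j) := by
  have h0 : Rt OnePoint.infty := fun z hz => absurd hz.symm (OnePoint.coe_ne_infty z)
  have h : ∀ z : ℂ, isQ z → Rt (z : Sp) := by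
    intro z hz w hw
    rwa [← OnePoint.coe_injective hw]
  have a0 : Rt ((0 : ℂ) : Sp) := h _ ⟨⟨0, by simp⟩, 0, by simp⟩
  have a1 : Rt ((1 : ℂ) : Sp) := h _ ⟨⟨1, by simp⟩, 0, by simp⟩
  have a2 : Rt ((Complex.I : ℂ) : Sp) := h _ ⟨⟨0, by simp⟩, 1, by simp⟩
  have a3 : Rt ((1 + Complex.I : ℂ) : Sp) := h _ ⟨⟨1, by simp⟩, 1, by simp⟩
  have a4 : Rt (((1 + Complex.I) / 2 : ℂ) : Sp) := h _ ⟨⟨1 / 2, by simp⟩, 1 / 2, by simp⟩
  fin_cases i <;> fin_cases j <;> simp [tp] <;> assumption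

lemma lam_zpow (n : ℤ) : ∃ a b : ℤ, lam ^ n = a + b * √2 ∧ a ^ 2 - 2 * b ^ 2 = 1 := by
  induction n using Int.induction_on with
  | zero => exact ⟨1, 0, by simp, by norm_num⟩
  | succ n ih =>
    obtain ⟨a, b, h1, h2⟩ := ih
    refine ⟨17 * a + 24 * b, 12 * a + 17 * b, ?_, ?_⟩
    · rw [zpow_add_one₀ lam_pos.ne', h1]
      unfold lam
      push_cast
      linear_combination (12 * b : ℝ) * sq2
    · linear_combination h2
  | pred n ih =>
    obtain ⟨a, b, h1, h2⟩ := ih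
    refine ⟨17 * a - 24 * b, -12 * a + 17 * b, ?_, ?_⟩
    · rw [zpow_sub_one₀ lam_pos.ne', h1, lam_inv]
      push_cast
      linear_combination (-12 * b : ℝ) * sq2
    · linear_combination h2

lemma irr (a b : ℚ) (h : (a : ℝ) + b * √2 = 0) : a = 0 ∧ b = 0 := by
  by_cases hb : b = 0
  · subst hb
    simp at h
    exact ⟨h, rfl⟩
  · exfalso
    have hb' : (b : ℝ) ≠ 0 := by exact_mod_cast hb
    have h2 : √2 = ((-a / b : ℚ) : ℝ) := by
      push_cast
      field_simp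
      linarith
    exact irrational_sqrt_two ⟨-a / b, h2.symm⟩

lemma rat_GG {z : ℂ} (hz : isQ z) (hp : 0 < z.im) : (z : Sp) ∈ GG := by
  refine ⟨by rwa [hm_coe], ?_⟩
  rintro S ⟨ε, n, hε, rfl⟩ hS
  rw [mem_Z, ev_coe, hf] at hS
  obtain ⟨a, b, h1, h2⟩ := lam_zpow n
  obtain ⟨⟨x, hx⟩, y, hy⟩ := hz
  have h2' : (a : ℝ) ^ 2 - 2 * (b : ℝ) ^ 2 = 1 := by exact_mod_cast h2
  rw [hx, hy] at hS
  rw [hy] at hp
  simp only at hS
  rw [h1] at hS
  obtain ⟨e', he', he2⟩ : ∃ e' : ℚ, ε = e' ∧ e' ^ 2 = 1 := by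
    rcases hε with rfl | rfl
    · exact ⟨1, by simp, by norm_num⟩
    · exact ⟨-1, by simp, by norm_num⟩
  rw [he'] at hS
  have h3 := irr (x ^ 2 + y ^ 2 - 2 * a * y + 2) (-2 * e' * x - 2 * b * y) (by
    push_cast
    linear_combination hS)
  have h4 : ((x : ℝ) ^ 2 + y ^ 2 - 2 * a * y + 2) = 0 := by exact_mod_cast h3.1
  have h5 : (-2 * (e' : ℝ) * x - 2 * b * y) = 0 := by exact_mod_cast h3.2
  have he3 : (e' : ℝ) ^ 2 = 1 := by exact_mod_cast he2
  have h6 : (x : ℝ) ^ 2 = b ^ 2 * y ^ 2 := by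
    have h7 : (e' : ℝ) * x = - b * y := by linarith
    have h8 : ((e' : ℝ) * x) ^ 2 = (- b * y) ^ 2 := by rw [h7]
    linear_combination h8 - x ^ 2 * he3
  have h9 : (((b : ℝ) ^ 2 + 1) * y - a) ^ 2 = -1 := by
    linear_combination ((b : ℝ) ^ 2 + 1) * h4 - ((b : ℝ) ^ 2 + 1) * h6 + h2'
  nlinarith [sq_nonneg (((b : ℝ) ^ 2 + 1) * y - a)]

/-! ### thinness -/

lemma NI_snoc (u : List (Fin 4)) (l : Fin 4) : NI (u ++ [l]) = (r u) '' I l := by
  induction u with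
  | nil => simp
  | cons i u ih =>
    rw [r_cons_image, ← ih]
    obtain ⟨j, s, hs⟩ := List.exists_cons_of_ne_nil (l := u ++ [l]) (by simp)
    rw [List.cons_append, hs]
    rfl

lemma N_snoc (u : List (Fin 4)) (l : Fin 4) : N (u ++ [l]) = (r u) '' E l := by
  induction u with
  | nil => simp
  | cons i u ih =>
    rw [r_cons_image, ← ih]
    obtain ⟨j, s, hs⟩ := List.exists_cons_of_ne_nil (l := u ++ [l]) (by simp)
    rw [List.cons_append, hs]
    rfl

lemma r_image_C_sub (u : List (Fin 4)) (l : Fin 4) :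
    (r (u ++ [l])) '' C l ⊆ NI (u ++ [l]) := by
  rw [NI_snoc, r_append]
  rintro _ ⟨y, hy, rfl⟩
  refine ⟨R l y, R_image_C_self l ⟨y, hy, rfl⟩, ?_⟩
  simp [r]

lemma zero_notMem_I (i : Fin 4) : ((0 : ℂ) : Sp) ∉ I i := by
  simp only [I, Set.mem_ofPred_eq, ev_coe]
  fin_cases i <;> simp [e]

lemma zero_mem_C3 : ((0 : ℂ) : Sp) ∈ C 3 := by
  simp [C, ev_coe, q]

lemma thin (u : List (Fin 4)) (hu : u ≠ []) (hr : Rd u) : ∃ t, Rd (u ++ t) ∧ N (u ++ t) ⊆ GG := by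
  obtain ⟨u', l, rfl⟩ : ∃ u' l, u = u' ++ [l] := by
    rcases List.eq_nil_or_concat u with h | ⟨u', l, h⟩
    · exact absurd h hu
    · exact ⟨u', l, by rw [h, List.concat_eq_append]⟩
  obtain ⟨i, j, k, hij, _, _, hi, hj, _⟩ := others l
  have hS : (r (u' ++ [l])) '' C l ∈ Or := ⟨_, _, rfl⟩
  have hne : (r (u' ++ [l])) '' C l ≠ C 3 := by
    intro h
    have h0 : ((0 : ℂ) : Sp) ∈ NI (u' ++ [l]) := r_image_C_sub u' l (by rw [h]; exact zero_mem_C3)
    obtain ⟨m, s, hs⟩ := List.exists_cons_of_ne_nil (l := u' ++ [l]) (by simp)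
    rw [hs] at h0 hr
    exact zero_notMem_I m (NI_subset_I m s hr h0)
  have hmeet := (Or_meet 3 _ hS).resolve_left hne
  have htp : tp l i ≠ tp l j := by
    intro h
    have h6 : tp l i ∈ C l ∩ C i ∩ C j :=
      ⟨⟨tp_mem hi, by rw [tp_symm]; exact tp_mem hi.symm⟩, by
        rw [h, tp_symm]; exact tp_mem hj.symm⟩
    rw [triple hi hj hij] at h6
    exact h6
  obtain ⟨p, hp1, hp2, hp3⟩ : ∃ p, p ∈ C l ∧ Rt p ∧ r (u' ++ [l]) p ∉ C 3 := by
    by_cases h1 : r (u' ++ [l]) (tp l i) ∈ C 3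
    · refine ⟨tp l j, tp_mem hj, Rt_tp _ _, fun h2 => htp ?_⟩
      exact (r (u' ++ [l])).injective
        (hmeet _ ⟨_, tp_mem hi, rfl⟩ h1 _ ⟨_, tp_mem hj, rfl⟩ h2)
    · exact ⟨tp l i, tp_mem hi, Rt_tp _ _, h1⟩
  have hq : r (u' ++ [l]) p ∈ GG := by
    have h1 := Rt_r (u' ++ [l]) hp2
    have h2 := Or_Dk 3 _ hS _ ⟨p, hp1, rfl⟩
    generalize r (u' ++ [l]) p = x at *
    induction x using OnePoint.rec with
    | infty => exact absurd (by simp [C, q]) hp3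
    | coe z =>
      apply rat_GG (h1 z rfl)
      simp only [C, Dk, Set.mem_ofPred_eq, ev_coe, q] at hp3 h2
      simp at hp3 h2
      exact lt_of_le_of_ne h2 (Ne.symm hp3)
  have hqNI : r (u' ++ [l]) p ∈ NI (u' ++ [l]) := r_image_C_sub u' l ⟨p, hp1, rfl⟩
  have hqS : r (u' ++ [l]) p ∈ (r (u' ++ [l])) '' C l := ⟨p, hp1, rfl⟩
  generalize r (u' ++ [l]) p = x at *
  induction x using OnePoint.rec with
  | infty => exact absurd hq.1 (by simp)
  | coe z =>
    obtain ⟨n0, hn0⟩ := node_small (GG_open hq)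
    obtain ⟨w, hw1, hw2, hw3⟩ := node_cover' (n0 + (u' ++ [l]).length) hS hqS
    have hw0 : w ≠ [] := by rintro rfl; simp at hw1
    have hN := hn0 w (by omega) hw0 hw2 hw3
    have hcmp : ¬ Inc w (u' ++ [l]) := fun h => disj w _ hw2 hr h _ hw3 hqNI
    have hpre : (u' ++ [l]) <+: w := by
      unfold Inc at hcmp
      rw [not_and_or, not_not, not_not] at hcmp
      rcases hcmp with h | h
      · have := h.length_le
        omega
      · exact h
    obtain ⟨t, ht⟩ := hpre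
    exact ⟨t, by rw [ht]; exact hw2, by rw [ht]; exact hN⟩

/-! ### the antichain -/

/-- allowed words -/
def al (v : List (Fin 4)) : Prop := v ≠ [] ∧ Rd v ∧ Inc v [0] ∧ Inc v [1, 2] ∧ N v ⊆ GG

/-- minimal allowed words -/
def DD' (v : List (Fin 4)) : Prop := al v ∧ ∀ p, p <+: v → al p → p = v

/-- the antichain -/
def DD : Set (List (Fin 4)) := {v | v = [0] ∨ v = [1, 2] ∨ DD' v}

lemma min_al : ∀ (n : ℕ) (w : List (Fin 4)), w.length = n → al w → ∃ p, p <+: w ∧ DD' p := by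
  intro n
  induction n using Nat.strong_induction_on with
  | _ n ih =>
  intro w hn hw
  by_cases h : ∃ p, p <+: w ∧ al p ∧ p ≠ w
  · obtain ⟨p, h1, h2, h3⟩ := h
    have hl : p.length < n := by
      rw [← hn]
      exact lt_of_le_of_ne h1.length_le (fun h' => h3 (h1.eq_of_length h'))
    obtain ⟨p', h4, h5⟩ := ih _ hl p rfl h2
    exact ⟨p', h4.trans h1, h5⟩
  · push Not at h
    exact ⟨w, List.prefix_refl w, hw, h⟩

lemma DD_ne {v : List (Fin 4)} (hv : v ∈ DD) : v ≠ [] := by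
  rcases hv with rfl | rfl | hv
  · simp
  · simp
  · exact hv.1.1

lemma DD_rd {v : List (Fin 4)} (hv : v ∈ DD) : Rd v := by
  rcases hv with rfl | rfl | hv
  · simp [Rd]
  · simp [Rd]
  · exact hv.1.2.1

lemma inc12 : Inc ([0] : List (Fin 4)) [1, 2] := by
  unfold Inc; decide

lemma DD_inc {v v' : List (Fin 4)} (hv : v ∈ DD) (hv' : v' ∈ DD) (h : v ≠ v') : Inc v v' := by
  rcases hv with rfl | rfl | hv
  · rcases hv' with rfl | rfl | hv'
    · exact absurd rfl h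
    · exact inc12
    · exact hv'.1.2.2.1.symm
  · rcases hv' with rfl | rfl | hv'
    · exact inc12.symm
    · exact absurd rfl h
    · exact hv'.1.2.2.2.1.symm
  · rcases hv' with rfl | rfl | hv'
    · exact hv.1.2.2.1
    · exact hv.1.2.2.2.1
    · exact ⟨fun h1 => h (hv'.2 v h1 hv.1), fun h1 => h (hv.2 v' h1 hv'.1).symm⟩

lemma Inc_append {u v t : List (Fin 4)} (h : Inc u v) : Inc (u ++ t) v := by
  refine ⟨fun h1 => h.1 ((List.prefix_append u t).trans h1), fun h1 => ?_⟩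
  rcases List.prefix_or_prefix_of_prefix h1 (List.prefix_append u t) with h2 | h2
  · exact h.2 h2
  · exact h.1 h2

lemma cmp (u : List (Fin 4)) (hu : u ≠ []) (hr : Rd u) : ∃ v ∈ DD, ¬ Inc u v := by
  by_contra h
  push Not at h
  obtain ⟨t, ht1, ht2⟩ := thin u hu hr
  have h0 := h [0] (Or.inl rfl)
  have h1 := h [1, 2] (Or.inr (Or.inl rfl))
  have hal : al (u ++ t) := ⟨by simp [hu], ht1, Inc_append h0, Inc_append h1, ht2⟩
  obtain ⟨p, hp1, hp2⟩ := min_al _ _ rfl hal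
  have h2 := h p (Or.inr (Or.inr hp2))
  rcases List.prefix_or_prefix_of_prefix hp1 (List.prefix_append u t) with h3 | h3
  · exact h2.2 h3
  · exact h2.1 h3

lemma third : ∃ v, DD' v := by
  obtain ⟨v, hv, h⟩ := cmp [2] (by simp) (by simp [Rd])
  rcases hv with rfl | rfl | hv
  · exact absurd (by unfold Inc; decide) h
  · exact absurd (by unfold Inc; decide) h
  · exact ⟨v, hv⟩

/-- the group -/
noncomputable def WW : Subgroup (Equiv.Perm Sp) := Subgroup.closure (rho '' DD)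

lemma rho_mem_WW {v : List (Fin 4)} (hv : v ∈ DD) : rho v ∈ WW :=
  Subgroup.subset_closure ⟨v, hv, rfl⟩

lemma rho_inv (v : List (Fin 4)) : (rho v)⁻¹ = rho v := by
  rw [inv_eq_iff_mul_eq_one]; exact rho_mul_self v

lemma WW_ind {P : Equiv.Perm Sp → Prop} (h1 : P 1)
    (h2 : ∀ v ∈ DD, ∀ w, P w → P (rho v * w)) : ∀ w ∈ WW, P w := by
  intro w hw
  unfold WW at hw
  induction hw using Subgroup.closure_induction_left with
  | one => exact h1
  | mul_left x hx y hy ih =>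
    obtain ⟨v, hv, rfl⟩ := hx
    exact h2 v hv y ih
  | inv_mul_cancel x hx y hy ih =>
    obtain ⟨v, hv, rfl⟩ := hx
    rw [rho_inv]
    exact h2 v hv y ih

lemma cover_main : ∀ (n : ℕ) (u : List (Fin 4)), u.length = n → u ≠ [] → Rd u →
    ∃ w ∈ WW, ∃ v ∈ DD, w '' N v ⊆ N u := by
  intro n
  induction n using Nat.strong_induction_on with
  | _ n ih =>
  intro u hn hu hr
  obtain ⟨v, hv, hc⟩ := cmp u hu hr
  unfold Inc at hc
  rw [not_and_or, not_not, not_not] at hc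
  have hA : u <+: v → ∃ w ∈ WW, ∃ v ∈ DD, w '' N v ⊆ N u := by
    rintro ⟨t, rfl⟩
    refine ⟨1, WW.one_mem, _, hv, ?_⟩
    have h1 := N_append u t (DD_rd hv)
    simpa using h1
  rcases hc with h | ⟨t, rfl⟩
  · exact hA h
  · by_cases ht : t = []
    · subst ht
      exact hA (by simp)
    · obtain ⟨u', h1, h2, h3, h4⟩ := shorten v t (DD_ne hv) ht hr
      obtain ⟨w, hw, v', hv', h5⟩ := ih u'.length (by rw [← hn, List.length_append]; exact h3) u'
        rfl h1 h2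
      refine ⟨rho v * w, WW.mul_mem (rho_mem_WW hv) hw, v', hv', ?_⟩
      rintro _ ⟨y, hy, rfl⟩
      obtain ⟨z, hz, hz2⟩ := h4 (h5 ⟨y, hy, rfl⟩)
      rw [Equiv.Perm.mul_apply, ← hz2, rho_rho]
      exact hz

/-! ### parity -/

/-- orientation preserving -/
def isM (f : Equiv.Perm Sp) : Prop := ∃ g : GL (Fin 2) ℂ, f = mob g
/-- orientation reversing -/
def isA (f : Equiv.Perm Sp) : Prop := ∃ g : GL (Fin 2) ℂ, f = mob g * cjE

lemma cj_mob (g : GL (Fin 2) ℂ) :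
    cjE * mob g = mob (Matrix.GeneralLinearGroup.map (starRingEnd ℂ) g) * cjE := by
  ext x
  simp only [Equiv.Perm.mul_apply, cjE_apply, mob_apply, cj_smul]

lemma mob_mul (g h : GL (Fin 2) ℂ) : mob g * mob h = mob (g * h) := by
  ext x; simp [mul_smul]

lemma cjE_mul : cjE * cjE = 1 := by
  ext x; simp

lemma MM {f g : Equiv.Perm Sp} (hf : isM f) (hg : isM g) : isM (f * g) := by
  obtain ⟨a, rfl⟩ := hf
  obtain ⟨b, rfl⟩ := hg
  exact ⟨a * b, mob_mul a b⟩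

lemma MA {f g : Equiv.Perm Sp} (hf : isM f) (hg : isA g) : isA (f * g) := by
  obtain ⟨a, rfl⟩ := hf
  obtain ⟨b, rfl⟩ := hg
  exact ⟨a * b, by rw [← mob_mul, mul_assoc]⟩

lemma AM {f g : Equiv.Perm Sp} (hf : isA f) (hg : isM g) : isA (f * g) := by
  obtain ⟨a, rfl⟩ := hf
  obtain ⟨b, rfl⟩ := hg
  exact ⟨a * Matrix.GeneralLinearGroup.map (starRingEnd ℂ) b, by
    rw [← mob_mul, mul_assoc, cj_mob, mul_assoc]⟩

lemma AA {f g : Equiv.Perm Sp} (hf : isA f) (hg : isA g) : isM (f * g) := by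
  obtain ⟨a, rfl⟩ := hf
  obtain ⟨b, rfl⟩ := hg
  exact ⟨a * Matrix.GeneralLinearGroup.map (starRingEnd ℂ) b, by
    rw [← mob_mul, mul_assoc, ← mul_assoc cjE, cj_mob, mul_assoc, cjE_mul, mul_one]⟩

lemma isA_R (i : Fin 4) : isA (R i) := ⟨gA i, rfl⟩

lemma isA_rho : ∀ v : List (Fin 4), v ≠ [] → isA (rho v)
  | [], h => absurd rfl h
  | [i], _ => isA_R i
  | i :: j :: t, _ => AM (isA_R i) (AA (isA_rho (j :: t) (by simp)) (isA_R i)) |> fun h => by
      rw [rho_cons (by simp), mul_assoc]; exact h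

lemma WW_par : ∀ w ∈ WW, isM w ∨ isA w := by
  apply WW_ind
  · exact Or.inl ⟨1, by ext x; simp⟩
  · intro v hv w hw
    rcases hw with h | h
    · exact Or.inr (AM (isA_rho v (DD_ne hv)) h)
    · exact Or.inl (AA (isA_rho v (DD_ne hv)) h)

lemma NI_disj {v v' : List (Fin 4)} (hv : v ∈ DD) (hv' : v' ∈ DD) (h : v ≠ v') {x : Sp}
    (hx : x ∈ N v) : x ∉ NI v' :=
  disj v v' (DD_rd hv) (DD_rd hv') (DD_inc hv hv' h) x hx

lemma avoid (v : List (Fin 4)) (z : Sp) : ∃ v1 ∈ DD, v1 ≠ v ∧ z ∉ NI v1 := by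
  obtain ⟨v3, hv3⟩ := third
  have d0 : [0] ∈ DD := Or.inl rfl
  have d1 : [1, 2] ∈ DD := Or.inr (Or.inl rfl)
  have d3 : v3 ∈ DD := Or.inr (Or.inr hv3)
  have n1 : ([0] : List (Fin 4)) ≠ [1, 2] := by decide
  have n2 : v3 ≠ [0] := by
    rintro rfl
    exact hv3.1.2.2.1.1 (List.prefix_refl _)
  have n3 : v3 ≠ [1, 2] := by
    rintro rfl
    exact hv3.1.2.2.2.1.1 (List.prefix_refl _)
  have two : ∀ a b, a ∈ DD → b ∈ DD → a ≠ b → a ≠ v → b ≠ v → ∃ v1 ∈ DD, v1 ≠ v ∧ z ∉ NI v1 := by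
    intro a b ha hb hab hav hbv
    by_cases h : z ∈ NI a
    · exact ⟨b, hb, hbv, NI_disj ha hb hab (NI_subset_N a h)⟩
    · exact ⟨a, ha, hav, h⟩
  by_cases h0 : [0] = v
  · exact two _ _ d1 d3 n3.symm (by rw [← h0]; exact n1.symm) (by rw [← h0]; exact n2)
  · by_cases h1 : [1, 2] = v
    · exact two _ _ d0 d3 n2.symm h0 (by rw [← h1]; exact n3)
    · exact two _ _ d0 d1 n1 h0 h1

/-- orbits meet every node -/
lemma orbit (z : Sp) (u : List (Fin 4)) (hu : u ≠ []) (hr : Rd u) :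
    ∃ g : GL (Fin 2) ℂ, mob g ∈ WW ∧ g • z ∈ N u := by
  obtain ⟨w, hw, v, hv, hs⟩ := cover_main _ u rfl hu hr
  rcases WW_par w hw with hM | hA
  · obtain ⟨v1, h1, h2, h3⟩ := avoid v z
    obtain ⟨g, hg⟩ := MM hM (AA (isA_rho v (DD_ne hv)) (isA_rho v1 (DD_ne h1)))
    refine ⟨g, ?_, ?_⟩
    · rw [← hg]
      exact WW.mul_mem hw (WW.mul_mem (rho_mem_WW hv) (rho_mem_WW h1))
    · rw [← mob_apply, ← hg]
      exact hs ⟨_, rho_mem v _ (NI_disj h1 hv h2 (rho_mem v1 z h3)), rfl⟩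
  · obtain ⟨v2, k1, k2, _⟩ := avoid v z
    obtain ⟨v1, h1, h2, h3⟩ := avoid v2 z
    obtain ⟨g, hg⟩ := AA hA (AM (isA_rho v (DD_ne hv))
      (AA (isA_rho v2 (DD_ne k1)) (isA_rho v1 (DD_ne h1))))
    refine ⟨g, ?_, ?_⟩
    · rw [← hg]
      exact WW.mul_mem hw (WW.mul_mem (rho_mem_WW hv) (WW.mul_mem (rho_mem_WW k1) (rho_mem_WW h1)))
    · rw [← mob_apply, ← hg]
      exact hs ⟨_, rho_mem v _ (NI_disj k1 hv k2
        (rho_mem v2 _ (NI_disj h1 k1 h2 (rho_mem v1 z h3)))), rfl⟩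

end Pool.Agent.N78.AP
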