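import Pool.Agent.N78.AP.Group

/-!
# The orbit of the special circle; accumulation of the orbits of points
-/

set_option autoImplicit false

open Topology Filter ComplexConjugate

namespace Pool.Agent.N78.AP

lemma ev_q3 (x : Sp) : ev (q 3) x = 2 * hm x := by
  induction x using OnePoint.rec with
  | infty => simp [q]
  | coe z => simp [q, ev_coe]

lemma R_hm {i : Fin 4} (hi : i ≠ 3) {x : Sp} (hx : 0 < hm x) : 0 < hm (R i x) := by
  obtain ⟨k, hk, h⟩ := ev_q_R hi x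
  rw [ev_q3, ev_q3] at h
  by_contra h2
  push Not at h2
  nlinarith [mul_nonneg hk.le (neg_nonneg.2 h2)]

lemma rf_hf (ε s : ℝ) : rf 0 (hf ε s) = hf (-ε) s := by
  ext <;> simp [rf, add, sm, ip, e, hf]
  ring

lemma rf_hf2 (ε s : ℝ) (hε : ε = 1 ∨ ε = -1) :
    rf 1 (rf 2 (rf 1 (hf ε s))) = sm (17 - 12 * ε * √2) (hf (-ε) (s * (17 + 12 * ε * √2))) := by
  have h : ε * ε = 1 := by rcases hε with rfl | rfl <;> norm_num
  ext <;> simp [rf, add, sm, ip, e, hf]
  · ring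
  · linear_combination (12 : ℝ) * h * 2 + (12 : ℝ) * (ε * ε) * sq2
  · linear_combination (288 * s : ℝ) * h + (144 * s : ℝ) * (ε * ε) * sq2
  · ring

lemma coef_ne (ε : ℝ) (hε : ε = 1 ∨ ε = -1) : (17 - 12 * ε * √2 : ℝ) ≠ 0 := by
  intro h0
  have h : ε * ε = 1 := by rcases hε with rfl | rfl <;> norm_num
  have h1 : (17 - 12 * ε * √2) * (17 + 12 * ε * √2) = 1 := by
    linear_combination (-288 : ℝ) * h - (144 : ℝ) * (ε * ε) * sq2
  rw [h0, zero_mul] at h1
  exact zero_ne_one h1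

lemma rho0_Z (Q : Fm) : (rho [0]) '' Z Q = Z (rf 0 Q) := R_Z 0 Q

lemma rho12_Z (Q : Fm) : (rho [1, 2]) '' Z Q = Z (rf 1 (rf 2 (rf 1 Q))) := by
  have h : ((rho [1, 2]) '' Z Q : Set Sp) = (R 1) '' ((R 2) '' ((R 1) '' Z Q)) := by
    rw [← Set.image_comp, ← Set.image_comp]; rfl
  rw [h, R_Z, R_Z, R_Z]

lemma rho0_hf (ε s : ℝ) : (rho [0]) '' Z (hf ε s) = Z (hf (-ε) s) := by
  rw [rho0_Z, rf_hf]

lemma rho12_hf (ε s : ℝ) (hε : ε = 1 ∨ ε = -1) :
    (rho [1, 2]) '' Z (hf ε s) = Z (hf (-ε) (s * (17 + 12 * ε * √2))) := by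
  rw [rho12_Z, rf_hf2 ε s hε, Z_sm (coef_ne ε hε)]

lemma fam_a1 {S : Set Sp} (hS : S ∈ fam) : (rho [0]) '' S ∈ fam := by
  obtain ⟨ε, n, hε, rfl⟩ := hS
  rw [rho0_hf]
  refine ⟨-ε, n, ?_, rfl⟩
  rcases hε with rfl | rfl
  · right; rfl
  · left; norm_num

lemma fam_a2 {S : Set Sp} (hS : S ∈ fam) : (rho [1, 2]) '' S ∈ fam := by
  obtain ⟨ε, n, hε, rfl⟩ := hS
  rw [rho12_hf ε _ hε]
  rcases hε with rfl | rfl
  · refine ⟨-1, n + 1, Or.inr rfl, ?_⟩
    rw [zpow_add_one₀ lam_pos.ne', mul_one]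
    rfl
  · refine ⟨1, n - 1, Or.inl rfl, ?_⟩
    rw [zpow_sub_one₀ lam_pos.ne', lam_inv, neg_neg]
    congr 3
    ring

lemma WW_list : ∀ w ∈ WW, ∃ L : List (List (Fin 4)), (∀ v ∈ L, v ∈ DD) ∧
    L.IsChain (· ≠ ·) ∧ w = (L.map rho).prod := by
  apply WW_ind
  · exact ⟨[], by simp, by simp, by simp⟩
  · rintro v hv w ⟨L, h1, h2, rfl⟩
    by_cases h : ∃ L', L = v :: L'
    · obtain ⟨L', rfl⟩ := h
      refine ⟨L', fun x hx => h1 x (List.mem_cons_of_mem _ hx), h2.tail, ?_⟩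
      rw [List.map_cons, List.prod_cons, ← mul_assoc, rho_mul_self, one_mul]
    · refine ⟨v :: L, ?_, ?_, by simp⟩
      · intro x hx
        rcases List.mem_cons.1 hx with rfl | hx
        · exact hv
        · exact h1 x hx
      · rcases L with _ | ⟨v', L'⟩
        · simp
        · rw [List.isChain_cons_cons]
          refine ⟨?_, h2⟩
          rintro rfl
          exact h ⟨L', rfl⟩

/-- the special circle -/
noncomputable def C0 : Set Sp := Z (hf 1 1)

lemma C0_fam : C0 ∈ fam := ⟨1, 0, Or.inl rfl, by rw [zpow_zero]; rfl⟩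

lemma pp : ∀ L : List (List (Fin 4)), (∀ v ∈ L, v ∈ DD) → L.IsChain (· ≠ ·) →
    ((L.map rho).prod '' C0 ∈ fam) ∨ ((∀ x ∈ (L.map rho).prod '' C0, 0 < hm x) ∧
      ∃ v L', L = v :: L' ∧ (L.map rho).prod '' C0 ⊆ N v) := by
  intro L
  induction L with
  | nil =>
    intro _ _
    left
    simpa using C0_fam
  | cons v L ih =>
    intro h1 h2
    have hv := h1 v (by simp)
    have himg : ((List.map rho (v :: L)).prod '' C0 : Set Sp) =
        (rho v) '' ((L.map rho).prod '' C0) := by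
      rw [List.map_cons, List.prod_cons, ← Set.image_comp]; rfl
    rw [himg]
    rcases ih (fun x hx => h1 x (List.mem_cons_of_mem _ hx)) h2.tail with h | ⟨h3, v', L', rfl, h4⟩
    · rcases hv with rfl | rfl | hv
      · left; exact fam_a1 h
      · left; exact fam_a2 h
      · right
        have key : ∀ x ∈ (rho v) '' ((L.map rho).prod '' C0), x ∈ N v := by
          rintro _ ⟨y, hy, rfl⟩
          apply rho_mem
          intro hy2
          exact (hv.1.2.2.2.2 (NI_subset_N v hy2)).2 _ h hy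
        exact ⟨fun x hx => (hv.1.2.2.2.2 (key x hx)).1, v, L, rfl, key⟩
    · right
      have hne : v' ≠ v := by
        have := (List.isChain_cons_cons.1 h2).1
        exact this.symm
      have hv' := h1 v' (by simp)
      have key : ∀ x ∈ (rho v) '' (((v' :: L').map rho).prod '' C0), x ∈ N v := by
        rintro _ ⟨y, hy, rfl⟩
        exact rho_mem v y (NI_disj hv' hv hne (h4 hy))
      refine ⟨?_, v, _, rfl, key⟩
      rcases hv with rfl | rfl | hv
      · rintro _ ⟨y, hy, rfl⟩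
        exact R_hm (by decide) (h3 y hy)
      · rintro _ ⟨y, hy, rfl⟩
        have e : rho [1, 2] y = R 1 (R 2 (R 1 y)) := rfl
        rw [e]
        exact R_hm (by decide) (R_hm (by decide) (R_hm (by decide) (h3 y hy)))
      · exact fun x hx => (hv.1.2.2.2.2 (key x hx)).1

lemma pp_main {w : Equiv.Perm Sp} (hw : w ∈ WW) :
    (OnePoint.infty : Sp) ∉ w '' C0 ∧ ∀ x ∈ w '' C0, 0 ≤ hm x := by
  obtain ⟨L, h1, h2, rfl⟩ := WW_list w hw
  rcases pp L h1 h2 with ⟨ε, n, hε, h⟩ | ⟨h, _⟩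
  · rw [h]
    exact ⟨hf_infty _ _, fun x hx => hf_nonneg hε (zpow_pos lam_pos n) hx⟩
  · refine ⟨fun h3 => ?_, fun x hx => (h x hx).le⟩
    have := h _ h3
    simp at this

/-- the group of Moebius transformations -/
noncomputable def Gam : Subgroup (GL (Fin 2) ℂ) :=
  WW.comap (MulAction.toPermHom (GL (Fin 2) ℂ) Sp)

lemma mem_Gam {g : GL (Fin 2) ℂ} : g ∈ Gam ↔ mob g ∈ WW := Iff.rfl

lemma image_mob (g : GL (Fin 2) ℂ) (S : Set Sp) :
    (fun w : Sp => g • w) '' S = (mob g) '' S := rfl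

/-- powers of the hyperbolic element -/
lemma pow_hyp (n : ℕ) : ∃ g ∈ Gam, (fun w : Sp => g • w) '' C0 = Z (hf 1 (lam ^ n)) := by
  induction n with
  | zero => exact ⟨1, Gam.one_mem, by simp [C0]⟩
  | succ n ih =>
    obtain ⟨g, hg, h⟩ := ih
    obtain ⟨g', hg'⟩ := MM (AA (isA_rho [0] (by simp)) (isA_rho [1, 2] (by simp))) ⟨g, rfl⟩
    refine ⟨g', ?_, ?_⟩
    · rw [mem_Gam, ← hg']
      exact WW.mul_mem (WW.mul_mem (rho_mem_WW (Or.inl rfl)) (rho_mem_WW (Or.inr (Or.inl rfl)))) hg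
    · rw [image_mob, ← hg']
      have h2 : (((rho [0] * rho [1, 2] * mob g : Equiv.Perm Sp)) '' C0 : Set Sp) =
          (rho [0]) '' ((rho [1, 2]) '' ((mob g) '' C0)) := by
        rw [← Set.image_comp, ← Set.image_comp]; rfl
      rw [h2, ← image_mob, h, rho12_hf 1 _ (Or.inl rfl), rho0_hf, neg_neg, pow_succ, mul_one]
      rfl

/-- the matrices of the special circles -/
noncomputable def gs (t : ℝ) : GL (Fin 2) ℂ :=
  ⟨!![(√2 : ℝ), (√2 : ℝ) * Complex.I * t - 1; 1, Complex.I * t],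
   !![Complex.I * t, 1 - (√2 : ℝ) * Complex.I * t; -1, (√2 : ℝ)],
   by ext i j; fin_cases i <;> fin_cases j <;> simp [Matrix.mul_apply, Fin.sum_univ_two] <;> ring,
   by ext i j; fin_cases i <;> fin_cases j <;> simp [Matrix.mul_apply, Fin.sum_univ_two] <;> ring⟩

lemma Qg_gs (t : ℝ) : Qg (gs t) = ⟨-2 * t, 2 * √2 * t, 1, -4 * t⟩ := by
  have h00 : gs t 0 0 = (√2 : ℝ) := rfl
  have h01 : gs t 0 1 = (√2 : ℝ) * Complex.I * t - 1 := rfl
  have h10 : gs t 1 0 = 1 := rfl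
  have h11 : gs t 1 1 = Complex.I * t := rfl
  ext
  · simp [Qg, h00, h01, h10, h11]
  · simp [Qg, h00, h01, h10, h11]; ring
  · simp [Qg, h00, h01, h10, h11]
  · simp [Qg, h00, h01, h10, h11]; linear_combination (2 * t) * sq2

lemma mobR_Z (g : GL (Fin 2) ℂ) : mobR g = Z (Qg g) := by
  ext x; rw [mem_mobR, mem_Z]

lemma mobR_gs {t : ℝ} (ht : t ≠ 0) : mobR (gs t) = Z (hf 1 (1 / (2 * t))) := by
  rw [mobR_Z, Qg_gs]
  have h : (⟨-2 * t, 2 * √2 * t, 1, -4 * t⟩ : Fm) = sm (-2 * t) (hf 1 (1 / (2 * t))) := by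
    ext <;> simp [sm, hf]
    · ring
    · field_simp
    · ring
  rw [h, Z_sm (by simpa using ht)]

lemma mobR_gs0 : mobR (gs 0) = RR := by
  rw [mobR_Z, Qg_gs]
  ext x
  rw [mem_Z, mem_RR]
  have h : (⟨-2 * 0, 2 * √2 * 0, 1, -4 * 0⟩ : Fm) = q 3 := by
    ext <;> simp [q]
  rw [h, ev_q3]
  simp

lemma gs_cont : Continuous gs := by
  rw [Units.continuous_iff]
  constructor
  · apply continuous_matrix
    intro i j
    fin_cases i <;> fin_cases j <;> simp [gs] <;> fun_prop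
  · apply continuous_matrix
    intro i j
    fin_cases i <;> fin_cases j <;> simp [gs] <;> fun_prop

lemma not_closed : ¬ IsClosed {h : GL (Fin 2) ℂ | ∃ γ ∈ Gam,
    (fun w : Sp => h • w) '' RR = (fun w : Sp => γ • w) '' C0} := by
  intro hcl
  have ht : Tendsto (fun n : ℕ => (1 / (2 * lam ^ n) : ℝ)) atTop (𝓝 0) := by
    have h1 : Tendsto (fun n : ℕ => ((lam⁻¹) ^ n : ℝ)) atTop (𝓝 0) :=
      tendsto_pow_atTop_nhds_zero_of_lt_one (inv_nonneg.2 lam_pos.le) (inv_lt_one_of_one_lt₀ one_lt_lam)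
    have h2 := h1.const_mul (1 / 2 : ℝ)
    rw [mul_zero] at h2
    refine h2.congr (fun n => ?_)
    rw [inv_pow]
    field_simp
  have ht2 : Tendsto (fun n : ℕ => gs (1 / (2 * lam ^ n))) atTop (𝓝 (gs 0)) :=
    (gs_cont.tendsto 0).comp ht
  have hmem := hcl.mem_of_tendsto ht2 (Filter.Eventually.of_forall (fun n => by
    obtain ⟨g, hg, h⟩ := pow_hyp n
    refine ⟨g, hg, ?_⟩
    rw [h]
    have hl : (lam ^ n : ℝ) ≠ 0 := (pow_pos lam_pos n).ne'
    have := mobR_gs (t := 1 / (2 * lam ^ n)) (by positivity)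
    have h2 : (1 / (2 * (1 / (2 * lam ^ n))) : ℝ) = lam ^ n := by field_simp
    rw [h2] at this
    exact this))
  obtain ⟨γ, hγ, h⟩ := hmem
  have h1 : (OnePoint.infty : Sp) ∈ (mob γ) '' C0 := by
    rw [← image_mob, ← h]
    have := mobR_gs0
    unfold mobR at this
    rw [this, mem_RR]
    simp
  exact (pp_main hγ).1 h1

/-! ### Not dense -/

/-- the matrix of the imaginary axis -/
noncomputable def gi : GL (Fin 2) ℂ :=
  Matrix.GeneralLinearGroup.mkOfDetNeZero !![Complex.I, 0; 0, 1] (by simp [Matrix.det_fin_two])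

lemma gi_meets : ((0 : ℂ) : Sp) ∈ (fun w : Sp => gi • w) '' RR := by
  refine ⟨((0 : ℂ) : Sp), mem_RR.2 (by simp), ?_⟩
  show gi • ((0 : ℂ) : Sp) = _
  rw [OnePoint.smul_some_eq_ite]
  simp [gi, Matrix.GeneralLinearGroup.mkOfDetNeZero]

lemma not_dense : gi ∉ closure {h : GL (Fin 2) ℂ | ∃ γ ∈ Gam,
    (fun w : Sp => h • w) '' RR = (fun w : Sp => γ • w) '' C0} := by
  rw [mem_closure_iff]
  push Not
  have hcont : Continuous (fun h : GL (Fin 2) ℂ =>
      ((- h 0 0 + h 0 1) * conj (- h 1 0 + h 1 1)).im) := by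
    have hc : ∀ i j, Continuous (fun h : GL (Fin 2) ℂ => h i j) := by
      intro i j
      have h1 : Continuous (fun h : GL (Fin 2) ℂ => (h : Matrix (Fin 2) (Fin 2) ℂ)) :=
        Units.continuous_val
      exact h1.matrix_elem i j
    exact Complex.continuous_im.comp (((hc 0 0).neg.add (hc 0 1)).mul
      (Complex.continuous_conj.comp ((hc 1 0).neg.add (hc 1 1))))
  refine ⟨{h | ((- h 0 0 + h 0 1) * conj (- h 1 0 + h 1 1)).im < 0},
    isOpen_lt hcont continuous_const, ?_, ?_⟩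
  · simp [gi, Matrix.GeneralLinearGroup.mkOfDetNeZero]
  · ext h
    simp only [Set.mem_inter_iff, Set.mem_ofPred_eq, Set.mem_empty_iff_false, iff_false, not_and]
    rintro h1 ⟨γ, hγ, h2⟩
    obtain ⟨l, hl, k1, k2⟩ := smul_vec h ((-1 : ℂ) : Sp)
    have h3 : h • ((-1 : ℂ) : Sp) ∈ (mob γ) '' C0 := by
      rw [← image_mob, ← h2]
      exact ⟨_, mem_RR.2 (by simp), rfl⟩
    have h4 := (pp_main hγ).2 _ h3
    rw [w1_coe, w2_coe] at k1 k2
    have e1 : (- h 0 0 + h 0 1) = l * w1 (h • ((-1 : ℂ) : Sp)) := by rw [← k1]; ring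
    have e2 : (- h 1 0 + h 1 1) = l * w2 (h • ((-1 : ℂ) : Sp)) := by rw [← k2]; ring
    rw [e1, e2, map_mul] at h1
    have e3 : l * w1 (h • ((-1 : ℂ) : Sp)) * (conj l * conj (w2 (h • ((-1 : ℂ) : Sp)))) =
        (Complex.normSq l : ℂ) * (w1 (h • ((-1 : ℂ) : Sp)) * conj (w2 (h • ((-1 : ℂ) : Sp)))) := by
      rw [Complex.normSq_eq_conj_mul_self]; ring
    rw [e3, Complex.im_ofReal_mul] at h1
    have h5 : 0 ≤ Complex.normSq l := Complex.normSq_nonneg l
    have h6 := mul_nonneg h5 h4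
    unfold hm at h6
    linarith

/-! ### Separation -/

lemma hm_pos_iff {y : Sp} : 0 < hm y ↔ y ∈ (OnePoint.some '' {z : ℂ | 0 < z.im} : Set Sp) := by
  induction y using OnePoint.rec with
  | infty => simp
  | coe z =>
    rw [hm_coe]
    constructor
    · intro h; exact ⟨z, h, rfl⟩
    · rintro ⟨z', hz', h⟩
      rw [← OnePoint.coe_injective h]; exact hz'

lemma hm_neg_iff {y : Sp} : hm y < 0 ↔ y ∈ (OnePoint.some '' {z : ℂ | z.im < 0} : Set Sp) := by
  induction y using OnePoint.rec with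
  | infty => simp
  | coe z =>
    rw [hm_coe]
    constructor
    · intro h; exact ⟨z, h, rfl⟩
    · rintro ⟨z', hz', h⟩
      rw [← OnePoint.coe_injective h]; exact hz'

lemma pos_side {g : GL (Fin 2) ℂ} {x : Sp} (h : 0 < ev (Qg g) x) :
    x ∈ (fun w : Sp => g • w) '' (OnePoint.some '' {z : ℂ | 0 < z.im}) := by
  obtain ⟨k, hk, h2⟩ := ev_Qg g (g⁻¹ • x)
  rw [smul_inv_smul] at h2
  refine ⟨g⁻¹ • x, hm_pos_iff.1 ?_, smul_inv_smul g x⟩
  rw [h2] at h
  exact (mul_pos_iff_of_pos_left hk).1 h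

lemma neg_side {g : GL (Fin 2) ℂ} {x : Sp} (h : ev (Qg g) x < 0) :
    x ∈ (fun w : Sp => g • w) '' (OnePoint.some '' {z : ℂ | z.im < 0}) := by
  obtain ⟨k, hk, h2⟩ := ev_Qg g (g⁻¹ • x)
  rw [smul_inv_smul] at h2
  refine ⟨g⁻¹ • x, hm_neg_iff.1 ?_, smul_inv_smul g x⟩
  rw [h2] at h
  by_contra h3
  push Not at h3
  nlinarith [mul_nonneg hk.le h3]

lemma C0_eq : C0 = mobR (gs (1 / 2)) := by
  rw [mobR_gs (by norm_num), C0]
  norm_num

lemma C0_sep : ((fun w : Sp => gs (1 / 2) • w) '' (OnePoint.some '' {z : ℂ | 0 < z.im}) ∩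
      closure (⋃₀ Or)).Nonempty ∧
    ((fun w : Sp => gs (1 / 2) • w) '' (OnePoint.some '' {z : ℂ | z.im < 0}) ∩
      closure (⋃₀ Or)).Nonempty := by
  constructor
  · refine ⟨((1 + Complex.I : ℂ) : Sp), pos_side ?_, subset_closure ⟨C 0, Or_C 0, ?_⟩⟩
    · rw [Qg_gs, ev_coe]
      simp
      nlinarith [sq2, Real.sqrt_nonneg (2 : ℝ)]
    · simp [C, ev_coe, q]
      norm_num
  · refine ⟨((0 : ℂ) : Sp), neg_side ?_, subset_closure ⟨C 3, Or_C 3, zero_mem_C3⟩⟩
    rw [Qg_gs, ev_coe]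
    simp

/-! ### the group preserves the packing -/

lemma rho_Or : ∀ (v : List (Fin 4)) {S : Set Sp}, S ∈ Or → (rho v) '' S ∈ Or
  | [], S, h => by simpa [rho] using h
  | [i], S, h => Or_R i h
  | i :: j :: t, S, h => by
    have h2 : ((rho (i :: j :: t)) '' S : Set Sp) = (R i) '' ((rho (j :: t)) '' ((R i) '' S)) := by
      rw [← Set.image_comp, ← Set.image_comp]; rfl
    rw [h2]
    exact Or_R i (rho_Or (j :: t) (Or_R i h))

lemma WW_Or {w : Equiv.Perm Sp} (hw : w ∈ WW) {S : Set Sp} (hS : S ∈ Or) : w '' S ∈ Or := by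
  revert w
  apply WW_ind
  · simpa using hS
  · intro v hv w h
    have h2 : ((rho v * w : Equiv.Perm Sp) '' S : Set Sp) = (rho v) '' (w '' S) := by
      rw [← Set.image_comp]; rfl
    rw [h2]
    exact rho_Or v h

lemma Gam_Or {g : GL (Fin 2) ℂ} (hg : g ∈ Gam) (S : Set Sp) :
    S ∈ Or ↔ (fun w : Sp => g • w) '' S ∈ Or := by
  rw [image_mob]
  constructor
  · exact fun h => WW_Or hg h
  · intro h
    have hg' : mob g ∈ WW := hg
    have h2 := WW_Or (WW.inv_mem hg') h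
    rw [← Set.image_comp] at h2
    have h3 : (⇑((mob g)⁻¹ : Equiv.Perm Sp) ∘ ⇑(mob g)) = id := by
      funext y
      exact (mob g).symm_apply_apply y
    rwa [h3, Set.image_id] at h2

/-! ### accumulation -/

lemma acc_coe (z : Sp) {x : ℂ} {S : Set Sp} (hS : S ∈ Or) (hx : (x : Sp) ∈ S) :
    (x : Sp) ∈ derivedSet {w : Sp | ∃ g ∈ Gam, w = g • z} := by
  rw [mem_derivedSet, accPt_iff_nhds]
  intro U hU
  obtain ⟨n0, hn0⟩ := node_small hU
  obtain ⟨u, hu1, hu2, hu3⟩ := node_cover' n0 hS hx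
  have hu0 : u ≠ [] := by rintro rfl; simp at hu1
  have hN := hn0 u (by omega) hu0 hu2 hu3
  obtain ⟨u', l, rfl⟩ : ∃ u' l, u = u' ++ [l] := by
    rcases List.eq_nil_or_concat u with h | ⟨u', l, h⟩
    · exact absurd h hu0
    · exact ⟨u', l, by rw [h, List.concat_eq_append]⟩
  obtain ⟨a, b, c, hab, hac, hbc, ha, hb, hc⟩ := others l
  have hrd : ∀ m, l ≠ m → Rd (u' ++ [l] ++ [m]) := by
    intro m hm
    unfold Rd at *
    rw [List.append_assoc, List.isChain_append] 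
    rw [List.isChain_append] at hu2
    refine ⟨hu2.1, by simp [hm], ?_⟩
    simpa using hu2.2.2
  obtain ⟨m, hm, hxm⟩ : ∃ m, l ≠ m ∧ (x : Sp) ∉ N (u' ++ [l] ++ [m]) := by
    by_contra hcon
    push Not at hcon
    have h1 := hcon a ha
    have h2 := hcon b hb
    have h3 := hcon c hc
    rw [N_snoc] at h1 h2 h3
    obtain ⟨y1, hy1, e1⟩ := h1
    obtain ⟨y2, hy2, e2⟩ := h2
    obtain ⟨y3, hy3, e3⟩ := h3
    have e4 : y2 = y1 := (r (u' ++ [l])).injective (by rw [e1, e2])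
    have e5 : y3 = y1 := (r (u' ++ [l])).injective (by rw [e1, e3])
    subst e4
    subst e5
    have := eee_pos hab hac hbc y3
    simp only [E, Set.mem_ofPred_eq] at hy1 hy2 hy3
    linarith
  obtain ⟨g, hg, hgz⟩ := orbit z (u' ++ [l] ++ [m]) (by simp) (hrd m hm)
  refine ⟨g • z, ⟨hN (N_append (u' ++ [l]) [m] (hrd m hm) hgz), g, hg, rfl⟩, ?_⟩
  intro h
  rw [h] at hgz
  exact hxm hgz

lemma infty_mem {F : Set Sp} (hF : IsClosed F) (h : ∀ t : ℝ, ((t : ℂ) : Sp) ∈ F) :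
    (OnePoint.infty : Sp) ∈ F := by
  have h1 : Tendsto (fun n : ℕ => (((n : ℝ) : ℂ) : Sp)) atTop (𝓝 OnePoint.infty) := by
    have h2 : Tendsto (fun n : ℕ => (((n : ℝ) : ℂ))) atTop (cocompact ℂ) := by
      rw [← Metric.cobounded_eq_cocompact, ← tendsto_norm_atTop_iff_cobounded]
      simp only [Complex.norm_real, Real.norm_natCast]
      exact tendsto_natCast_atTop_atTop
    have h3 := OnePoint.tendsto_coe_infty (X := ℂ)
    rw [coclosedCompact_eq_cocompact] at h3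
    exact h3.comp h2
  exact hF.mem_of_tendsto h1 (Filter.Eventually.of_forall (fun n => h n))

lemma sup_main (z : Sp) : closure (⋃₀ Or) ⊆ derivedSet {w : Sp | ∃ g ∈ Gam, w = g • z} := by
  have hcl : IsClosed (derivedSet {w : Sp | ∃ g ∈ Gam, w = g • z}) := isClosed_derivedSet _
  apply closure_minimal _ hcl
  rintro x ⟨S, hS, hx⟩
  induction x using OnePoint.rec with
  | infty =>
    apply infty_mem hcl
    intro t
    apply acc_coe z (Or_C 3)
    simp [C, ev_coe, q]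
  | coe x => exact acc_coe z hS hx

end Pool.Agent.N78.AP
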