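import Pool.Agent.N78.AP.Cover

/-!
# Nodes shrink
-/

set_option autoImplicit false

open Topology Filter ComplexConjugate

namespace Pool.Agent.N78.AP

/-- leading coefficients, for reversed words -/
noncomputable def av : List (Fin 4) → Fin 4 → ℝ
  | [], i => (e i).A
  | l :: s, i => if i = l then - av s l else av s i + 2 * av s l

lemma av_self (l : Fin 4) (s : List (Fin 4)) : av (l :: s) l = - av s l := by
  rw [av, if_pos rfl]

lemma av_ne {i l : Fin 4} (h : i ≠ l) (s : List (Fin 4)) :
    av (l :: s) i = av s i + 2 * av s l := by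
  rw [av, if_neg h]

lemma av_eq (s : List (Fin 4)) (i : Fin 4) : av s i = (V s.reverse i).A := by
  induction s generalizing i with
  | nil => rfl
  | cons l s ih =>
    rw [List.reverse_cons, av]
    by_cases h : i = l
    · subst h
      rw [if_pos rfl, VA_append_self, ih]
    · rw [if_neg h, VA_append _ h, ih, ih]

/-- growth of the leading coefficients -/
lemma av_growth : ∀ (l : Fin 4) (s : List (Fin 4)), Rd (l :: s) →
    ((∀ m ∈ l :: s, m = 0 ∨ m = 1) ∧ ∀ i, av (l :: s) i = (e i).A) ∨
    ∃ s0, s0 <:+ (l :: s) ∧ (∀ m ∈ s0, m = 0 ∨ m = 1) ∧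
      2 * (((l :: s).length : ℝ) - s0.length) ≤ - av (l :: s) l ∧
      ∀ i, i ≠ l → - av (l :: s) l + 2 ≤ av (l :: s) i := by
  intro l s
  induction s generalizing l with
  | nil =>
    intro _
    by_cases hl : l = 0 ∨ l = 1
    · left
      refine ⟨by simpa using hl, ?_⟩
      intro i
      rcases hl with rfl | rfl <;> fin_cases i <;> simp [av, e]
    · right
      refine ⟨[], List.nil_suffix, by simp, ?_, ?_⟩
      · fin_cases l <;> simp_all [av, e]
      · intro i hi
        fin_cases l <;> fin_cases i <;> simp_all [av, e] <;> norm_num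
  | cons m s ih =>
    intro h
    have hlm : l ≠ m := h.head_ne
    rcases ih m h.tail with ⟨h1, h2⟩ | ⟨s0, h1, h2, h3, h4⟩
    · by_cases hl : l = 0 ∨ l = 1
      · left
        refine ⟨?_, ?_⟩
        · intro k hk
          rcases List.mem_cons.1 hk with rfl | hk
          · exact hl
          · exact h1 k hk
        · intro i
          rw [av, h2, h2]
          rcases hl with rfl | rfl <;> fin_cases i <;> simp [e]
      · right
        refine ⟨m :: s, List.suffix_cons _ _, h1, ?_, ?_⟩
        · rw [av_self, h2]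
          fin_cases l <;> simp_all [e]
        · intro i hi
          rw [av_self, av_ne hi, h2, h2]
          fin_cases l <;> fin_cases i <;> simp_all [e] <;> norm_num
    · right
      have h5 := h4 l hlm
      have h6 : (s0.length : ℝ) ≤ ((m :: s).length : ℝ) := by exact_mod_cast h1.length_le
      refine ⟨s0, h1.trans (List.suffix_cons _ _), h2, ?_, ?_⟩
      · rw [av_self]
        rw [List.length_cons]
        push_cast
        linarith
      · intro i hi
        rw [av_self, av_ne hi]
        by_cases him : i = m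
        · subst him
          linarith
        · have h7 := h4 i him
          linarith

lemma R0_coe (z : ℂ) : R 0 (z : Sp) = ((-conj z : ℂ) : Sp) := by
  rw [R_apply, cj_coe, OnePoint.smul_some_eq_ite]
  simp [gA_apply, mA]

lemma R1_coe (z : ℂ) : R 1 (z : Sp) = ((2 - conj z : ℂ) : Sp) := by
  rw [R_apply, cj_coe, OnePoint.smul_some_eq_ite]
  simp [gA_apply, mA]
  ring

lemma strip : ∀ (w : List (Fin 4)), w ≠ [] → Rd w → (∀ m ∈ w, m = 0 ∨ m = 1) → ∀ z : ℂ,
    (z : Sp) ∈ N w → (w.head? = some 0 ∧ z.re ≤ - ((w.length : ℝ) - 1)) ∨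
      (w.head? = some 1 ∧ (w.length : ℝ) ≤ z.re)
  | [], h, _, _, _, _ => absurd rfl h
  | [i], _, _, hm, z, hz => by
    have hi := hm i (by simp)
    simp only [N, E, Set.mem_ofPred_eq, ev_coe] at hz
    rcases hi with rfl | rfl
    · left
      simp [e] at hz ⊢
      linarith
    · right
      simp [e] at hz ⊢
      linarith
  | i :: j :: t, _, hr, hm, z, hz => by
    have hi := hm i (by simp)
    have hij := hr.head_ne
    rw [mem_N_cons (by simp)] at hz
    rcases hi with rfl | rfl
    · rw [R0_coe] at hz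
      rcases strip (j :: t) (by simp) hr.tail (fun m h => hm m (by simp_all)) _ hz with h | h
      · exact absurd (by simpa using h.1.symm) hij
      · left
        refine ⟨rfl, ?_⟩
        have h2 := h.2
        simp at h2 ⊢
        linarith
    · rw [R1_coe] at hz
      rcases strip (j :: t) (by simp) hr.tail (fun m h => hm m (by simp_all)) _ hz with h | h
      · right
        refine ⟨rfl, ?_⟩
        have h2 := h.2
        simp at h2 ⊢
        linarith
      · exact absurd (by simpa using h.1.symm) hij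

lemma strip' (w : List (Fin 4)) (hr : Rd w) (hm : ∀ m ∈ w, m = 0 ∨ m = 1) (z : ℂ)
    (hz : (z : Sp) ∈ N w) : (w.length : ℝ) ≤ |z.re| + 1 := by
  by_cases hw : w = []
  · subst hw; simp; positivity
  · rcases strip w hw hr hm z hz with ⟨_, h⟩ | ⟨_, h⟩
    · have := neg_le_abs z.re
      linarith
    · have := le_abs_self z.re
      linarith

lemma Rd_reverse {w : List (Fin 4)} : Rd w.reverse ↔ Rd w := by
  unfold Rd
  rw [List.isChain_reverse]
  constructor <;> intro h <;> exact h.imp (fun _ _ h' => h'.symm)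

lemma FA_ge (w : List (Fin 4)) (hw : w ≠ []) (hr : Rd w) (z : ℂ) (hz : (z : Sp) ∈ N w) :
    2 * ((w.length : ℝ) - |z.re| - 1) ≤ (F w).A := by
  obtain ⟨l, s, hs⟩ : ∃ l s, w.reverse = l :: s :=
    List.exists_cons_of_ne_nil (by simpa using hw)
  have hw' : w = s.reverse ++ [l] := by
    rw [← List.reverse_reverse w, hs, List.reverse_cons]
  have hF : (F w).A = - av (l :: s) l := by
    rw [av, if_pos rfl, neg_neg, av_eq, hw', F_append]
  have hr' : Rd (l :: s) := by rw [← hs]; exact Rd_reverse.2 hr
  have hlen : w.length = (l :: s).length := by rw [← hs, List.length_reverse]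
  rcases av_growth l s hr' with ⟨h1, h2⟩ | ⟨s0, h1, h2, h3, h4⟩
  · have h5 : ∀ m ∈ w, m = 0 ∨ m = 1 := by
      intro m hm
      apply h1
      rw [← hs]
      simpa using hm
    have h6 := strip' w hr h5 z hz
    have h7 : (F w).A = 0 := by
      rw [hF, h2]
      rcases h1 l (by simp) with rfl | rfl <;> simp [e]
    rw [h7]
    linarith
  · obtain ⟨s1, hs1⟩ := h1
    have hw2 : w = s0.reverse ++ s1.reverse := by
      rw [← List.reverse_append, hs1, ← hs, List.reverse_reverse]
    have h5 := N_append s0.reverse s1.reverse (by rw [← hw2]; exact hr)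
    rw [← hw2] at h5
    have h6 := strip' s0.reverse (by rw [hw2] at hr; exact hr.left)
      (by intro m hm; exact h2 m (by simpa using hm)) z (h5 hz)
    rw [List.length_reverse] at h6
    rw [hF, hlen]
    linarith

/-- nodes with positive leading coefficient are finite disks -/
lemma node_disk (w : List (Fin 4)) (hw : w ≠ []) (hA : 0 < (F w).A) (z : ℂ)
    (hz : (z : Sp) ∈ N w) {y : Sp} (hy : y ∈ N w) :
    ∃ z' : ℂ, y = (z' : Sp) ∧ ‖z' - z‖ ≤ 4 / (F w).A := by
  rw [mem_N_iff w hw] at hz hy
  have hn := norm_F w hw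
  induction y using OnePoint.rec with
  | infty => rw [ev_infty] at hy; linarith
  | coe z' =>
    refine ⟨z', rfl, ?_⟩
    rw [ev_coe] at hz hy
    generalize (F w).A = A at *
    generalize (F w).b = b at *
    generalize (F w).c = c at *
    generalize (F w).D = D at *
    have h1 : (A * z.re + b) ^ 2 + (A * z.im + c) ^ 2 ≤ 1 := by
      have := mul_le_mul_of_nonneg_left hz hA.le
      nlinarith
    have h2 : (A * z'.re + b) ^ 2 + (A * z'.im + c) ^ 2 ≤ 1 := by
      have := mul_le_mul_of_nonneg_left hy hA.le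
      nlinarith
    have k1 : |A * z.re + b| ≤ 1 := by rw [← sq_le_one_iff_abs_le_one]; nlinarith [sq_nonneg (A * z.im + c)]
    have k2 : |A * z.im + c| ≤ 1 := by rw [← sq_le_one_iff_abs_le_one]; nlinarith [sq_nonneg (A * z.re + b)]
    have k3 : |A * z'.re + b| ≤ 1 := by rw [← sq_le_one_iff_abs_le_one]; nlinarith [sq_nonneg (A * z'.im + c)]
    have k4 : |A * z'.im + c| ≤ 1 := by rw [← sq_le_one_iff_abs_le_one]; nlinarith [sq_nonneg (A * z'.re + b)]
    rw [abs_le] at k1 k2 k3 k4
    have k5 : |z'.re - z.re| ≤ 2 / A := by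
      rw [abs_le, neg_div', div_le_iff₀ hA, le_div_iff₀ hA]
      constructor <;> nlinarith
    have k6 : |z'.im - z.im| ≤ 2 / A := by
      rw [abs_le, neg_div', div_le_iff₀ hA, le_div_iff₀ hA]
      constructor <;> nlinarith
    have h3 := Complex.norm_le_abs_re_add_abs_im (z' - z)
    rw [Complex.sub_re, Complex.sub_im] at h3
    have h4 : (4 : ℝ) / A = 2 / A + 2 / A := by ring
    rw [h4]
    linarith

/-- nodes around a finite point are eventually small -/
lemma node_small {z : ℂ} {U : Set Sp} (hU : U ∈ 𝓝 (z : Sp)) :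
    ∃ n0 : ℕ, ∀ w : List (Fin 4), n0 ≤ w.length → w ≠ [] → Rd w → (z : Sp) ∈ N w → N w ⊆ U := by
  have h1 : ((↑) : ℂ → Sp) ⁻¹' U ∈ 𝓝 z := OnePoint.continuous_coe.continuousAt.preimage_mem_nhds hU
  rw [Metric.mem_nhds_iff] at h1
  obtain ⟨ε, hε, h1⟩ := h1
  obtain ⟨n0, hn0⟩ := exists_nat_gt (|z.re| + 1 + 4 / ε)
  refine ⟨n0, fun w hl hw hr hz y hy => ?_⟩
  have h2 := FA_ge w hw hr z hz
  have h3 : (n0 : ℝ) ≤ w.length := by exact_mod_cast hl
  have h4 : 0 < 4 / ε := by positivity
  have h5 : 4 / ε < (F w).A := by linarith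
  obtain ⟨z', rfl, h6⟩ := node_disk w hw (h4.trans h5) z hz hy
  have h7 : 4 / (F w).A < ε := by
    rw [div_lt_iff₀ (h4.trans h5)]
    rw [div_lt_iff₀ hε] at h5
    linarith
  exact h1 (by rw [Metric.mem_ball, dist_eq_norm]; linarith)

end Pool.Agent.N78.AP
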