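import Pool.Agent.N78.AP.Base

/-!
# Nodes: the images of the dual disks under words in the reflections
-/

set_option autoImplicit false

open Topology Filter ComplexConjugate

namespace Pool.Agent.N78.AP

/-- reduced words -/
def Rd (u : List (Fin 4)) : Prop := List.IsChain (· ≠ ·) u

/-- closed nodes -/
noncomputable def N : List (Fin 4) → Set Sp
  | [] => Set.univ
  | [i] => E i
  | i :: j :: t => (R i) '' N (j :: t)

/-- open nodes -/
noncomputable def NI : List (Fin 4) → Set Sp
  | [] => Set.univ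
  | [i] => I i
  | i :: j :: t => (R i) '' NI (j :: t)

lemma mem_R_image {i : Fin 4} {S : Set Sp} {x : Sp} : x ∈ (R i) '' S ↔ R i x ∈ S := by
  constructor
  · rintro ⟨y, hy, rfl⟩; rwa [R_R]
  · intro h; exact ⟨R i x, h, R_R i x⟩

lemma mem_N_cons {i : Fin 4} {t : List (Fin 4)} (ht : t ≠ []) {x : Sp} :
    x ∈ N (i :: t) ↔ R i x ∈ N t := by
  obtain ⟨j, s, rfl⟩ := List.exists_cons_of_ne_nil ht
  rw [N, mem_R_image]

lemma mem_NI_cons {i : Fin 4} {t : List (Fin 4)} (ht : t ≠ []) {x : Sp} :
    x ∈ NI (i :: t) ↔ R i x ∈ NI t := by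
  obtain ⟨j, s, rfl⟩ := List.exists_cons_of_ne_nil ht
  rw [NI, mem_R_image]

@[simp] lemma N_single (i : Fin 4) : N [i] = E i := rfl
@[simp] lemma NI_single (i : Fin 4) : NI [i] = I i := rfl

lemma Rd.tail {i : Fin 4} {t : List (Fin 4)} (h : Rd (i :: t)) : Rd t := by
  unfold Rd at *
  exact h.tail

lemma Rd.head_ne {i j : Fin 4} {t : List (Fin 4)} (h : Rd (i :: j :: t)) : i ≠ j := by
  unfold Rd at h
  rw [List.isChain_cons_cons] at h
  exact h.1

lemma Rd.cons {i j : Fin 4} {t : List (Fin 4)} (hij : i ≠ j) (h : Rd (j :: t)) :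
    Rd (i :: j :: t) := by
  unfold Rd at *
  rw [List.isChain_cons_cons]
  exact ⟨hij, h⟩

lemma Rd.left {u t : List (Fin 4)} (h : Rd (u ++ t)) : Rd u := by
  unfold Rd at *
  exact h.left_of_append

lemma Rd.right {u t : List (Fin 4)} (h : Rd (u ++ t)) : Rd t := by
  unfold Rd at *
  exact h.right_of_append

lemma NI_subset_N : ∀ u : List (Fin 4), NI u ⊆ N u
  | [] => le_refl _
  | [i] => I_subset_E i
  | i :: j :: t => Set.image_mono (NI_subset_N (j :: t))

lemma N_subset_E : ∀ (i : Fin 4) (t : List (Fin 4)), Rd (i :: t) → N (i :: t) ⊆ E i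
  | i, [], _ => le_refl _
  | i, j :: t, h => by
    intro x hx
    rw [mem_N_cons (by simp)] at hx
    have h1 : R i x ∈ E j := N_subset_E j t h.tail hx
    have h2 : R i x ∉ I i := E_I_disj h.head_ne.symm h1
    have h3 := R_mem_E.2 h2
    rwa [R_R] at h3

lemma NI_subset_I : ∀ (i : Fin 4) (t : List (Fin 4)), Rd (i :: t) → NI (i :: t) ⊆ I i
  | i, [], _ => le_refl _
  | i, j :: t, h => by
    intro x hx
    rw [mem_NI_cons (by simp)] at hx
    have h1 : R i x ∈ I j := NI_subset_I j t h.tail hx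
    have h2 : R i x ∉ E i := fun h' => E_I_disj h.head_ne h' h1
    have h3 := R_mem_I.2 h2
    rwa [R_R] at h3

/-- nodes decrease along extensions -/
lemma N_append : ∀ (u t : List (Fin 4)), Rd (u ++ t) → N (u ++ t) ⊆ N u
  | [], t, _ => fun _ _ => Set.mem_univ _
  | [i], t, h => N_subset_E i t h
  | i :: j :: s, t, h => by
    intro x hx
    rw [mem_N_cons (by simp)]
    have hx' : x ∈ N (i :: (j :: s ++ t)) := hx
    rw [mem_N_cons (by simp)] at hx'
    exact N_append (j :: s) t h.tail hx'

lemma NI_append : ∀ (u t : List (Fin 4)), Rd (u ++ t) → NI (u ++ t) ⊆ NI u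
  | [], t, _ => fun _ _ => Set.mem_univ _
  | [i], t, h => NI_subset_I i t h
  | i :: j :: s, t, h => by
    intro x hx
    rw [mem_NI_cons (by simp)]
    have hx' : x ∈ NI (i :: (j :: s ++ t)) := hx
    rw [mem_NI_cons (by simp)] at hx'
    exact NI_append (j :: s) t h.tail hx'

/-- incomparable words -/
def Inc (u v : List (Fin 4)) : Prop := ¬ u <+: v ∧ ¬ v <+: u

lemma Inc.symm {u v : List (Fin 4)} (h : Inc u v) : Inc v u := ⟨h.2, h.1⟩

/-- incomparable nodes are disjoint -/
lemma disj : ∀ (u v : List (Fin 4)), Rd u → Rd v → Inc u v → ∀ x, x ∈ N u → x ∉ NI v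
  | [], v, _, _, h => absurd (List.nil_prefix) h.1
  | i :: u, [], _, _, h => absurd (List.nil_prefix) h.2
  | i :: u, j :: v, hu, hv, h => by
    intro x hx hx2
    by_cases hij : i = j
    · subst hij
      have hu0 : u ≠ [] := by
        rintro rfl
        exact h.1 ⟨v, rfl⟩
      have hv0 : v ≠ [] := by
        rintro rfl
        exact h.2 ⟨u, rfl⟩
      rw [mem_N_cons hu0] at hx
      rw [mem_NI_cons hv0] at hx2
      refine disj u v hu.tail hv.tail ⟨fun h1 => h.1 ?_, fun h1 => h.2 ?_⟩ _ hx hx2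
      · exact List.cons_prefix_cons.2 ⟨rfl, h1⟩
      · exact List.cons_prefix_cons.2 ⟨rfl, h1⟩
    · exact E_I_disj hij (N_subset_E i u hu hx) (NI_subset_I j v hv hx2)

/-- the reflection in a node -/
noncomputable def rho : List (Fin 4) → Equiv.Perm Sp
  | [] => 1
  | [i] => R i
  | i :: j :: t => R i * rho (j :: t) * R i

lemma rho_cons {i : Fin 4} {t : List (Fin 4)} (ht : t ≠ []) :
    rho (i :: t) = R i * rho t * R i := by
  obtain ⟨j, s, rfl⟩ := List.exists_cons_of_ne_nil ht
  rfl

lemma rho_mul_self : ∀ u : List (Fin 4), rho u * rho u = 1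
  | [] => rfl
  | [i] => R_mul_self i
  | i :: j :: t => by
    have h := rho_mul_self (j :: t)
    have h2 := R_mul_self i
    show (R i * rho (j :: t) * R i) * (R i * rho (j :: t) * R i) = 1
    calc (R i * rho (j :: t) * R i) * (R i * rho (j :: t) * R i)
        = R i * rho (j :: t) * (R i * R i) * rho (j :: t) * R i := by group
      _ = R i * (rho (j :: t) * rho (j :: t)) * R i := by rw [h2]; group
      _ = 1 := by rw [h]; rw [mul_one, h2]

@[simp] lemma rho_rho (u : List (Fin 4)) (x : Sp) : rho u (rho u x) = x := by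
  have := rho_mul_self u
  rw [← Equiv.Perm.mul_apply, this]; rfl

/-- ping-pong -/
lemma rho_mem : ∀ (u : List (Fin 4)) (x : Sp), x ∉ NI u → rho u x ∈ N u
  | [], x, _ => Set.mem_univ _
  | [i], x, h => R_mem_E.2 h
  | i :: j :: t, x, h => by
    rw [mem_NI_cons (by simp)] at h
    have h1 := rho_mem (j :: t) _ h
    rw [mem_N_cons (by simp)]
    rw [rho_cons (by simp)]
    simpa using h1

/-- shortening of nodes by reflections in bigger nodes -/
lemma shorten : ∀ (v t : List (Fin 4)), v ≠ [] → t ≠ [] → Rd (v ++ t) →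
    ∃ u : List (Fin 4), u ≠ [] ∧ Rd u ∧ u.length < v.length + t.length ∧
      N u ⊆ (rho v) '' N (v ++ t)
  | [], t, hv, _, _ => absurd rfl hv
  | [i], t, _, ht, h => by
    refine ⟨t, ht, h.tail, by simp, ?_⟩
    intro x hx
    refine ⟨R i x, ?_, ?_⟩
    · show R i x ∈ N (i :: t)
      rw [mem_N_cons ht, R_R]
      exact hx
    · show R i (R i x) = x
      simp
  | i :: j :: s, t, _, ht, h => by
    obtain ⟨u, hu0, hu, hl, hs⟩ := shorten (j :: s) t (by simp) ht h.tail
    have key : ∀ S : Set Sp, S ⊆ N u → (R i) '' S ⊆ (rho (i :: j :: s)) '' N (i :: j :: s ++ t) := by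
      rintro S hS _ ⟨y, hy, rfl⟩
      obtain ⟨z, hz, rfl⟩ := hs (hS hy)
      refine ⟨R i z, ?_, ?_⟩
      · show R i z ∈ N (i :: (j :: s ++ t))
        rw [mem_N_cons (by simp), R_R]
        exact hz
      · rw [rho_cons (by simp)]; simp
    obtain ⟨k, u', rfl⟩ := List.exists_cons_of_ne_nil hu0
    by_cases hik : i = k
    · subst hik
      rcases u' with _ | ⟨m, u''⟩
      · obtain ⟨m, hm⟩ : ∃ m : Fin 4, m ≠ i := by
          fin_cases i
          · exact ⟨1, by decide⟩
          · exact ⟨0, by decide⟩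
          · exact ⟨0, by decide⟩
          · exact ⟨0, by decide⟩
        refine ⟨[m], by simp, by simp [Rd], ?_, ?_⟩
        · simp at hl ⊢; omega
        · refine subset_trans ?_ (key (N [i]) (le_refl _))
          intro x hx
          rw [mem_R_image]
          exact R_mem_E.2 (E_I_disj hm hx)
      · refine ⟨m :: u'', by simp, hu.tail, ?_, ?_⟩
        · simp at hl ⊢; omega
        · refine subset_trans ?_ (key (N (i :: m :: u'')) (le_refl _))
          intro x hx
          rw [mem_R_image, mem_N_cons (by simp), R_R]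
          exact hx
    · refine ⟨i :: k :: u', by simp, Rd.cons hik hu, ?_, ?_⟩
      · simp at hl ⊢; omega
      · refine subset_trans ?_ (key (N (k :: u')) (le_refl _))
        intro x hx
        rw [mem_N_cons (by simp)] at hx
        rw [mem_R_image]
        exact hx

end Pool.Agent.N78.AP
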